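import Pool.Agent.Helper65.TU.Stmts

open Set Filter Topology

namespace Pool.Agent.Helper65.TU

universe u v w

section
variable {X : Type u} [NormedAddCommGroup X] [NormedSpace ℝ X]
variable {Y : Type v} [NormedAddCommGroup Y] [NormedSpace ℝ Y]

theorem wk_inducing : Topology.IsInducing (fun (x : WeakSpace ℝ X) (f : X →L[ℝ] ℝ) =>
    f ((toWeakSpace ℝ X).symm x)) := ⟨rfl⟩

theorem wk_eval (f : X →L[ℝ] ℝ) :
    Continuous (fun y : WeakSpace ℝ X => f ((toWeakSpace ℝ X).symm y)) :=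
  WeakBilin.eval_continuous (topDualPairing ℝ X).flip f

/-- a map into the weak space is continuous iff all functionals are. -/
theorem wk_continuous {A : Type w} [TopologicalSpace A] {h : A → X}
    (H : ∀ f : X →L[ℝ] ℝ, Continuous fun a => f (h a)) :
    Continuous (fun a => toWeakSpace ℝ X (h a)) := by
  rw [wk_inducing.continuous_iff]
  exact continuous_pi fun f => H f

theorem wk_tendsto {A : Type w} {l : Filter A} {h : A → X} {z : X} :
    Tendsto (fun a => toWeakSpace ℝ X (h a)) l (𝓝 (toWeakSpace ℝ X z)) ↔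
      ∀ f : X →L[ℝ] ℝ, Tendsto (fun a => f (h a)) l (𝓝 (f z)) := by
  rw [wk_inducing.tendsto_nhds_iff, tendsto_pi_nhds]
  rfl

theorem WCpt.union {K L : Set X} (hK : WCpt K) (hL : WCpt L) : WCpt (K ∪ L) := by
  unfold WCpt at *
  rw [image_union]
  exact hK.union hL

theorem wcpt_empty : WCpt (∅ : Set X) := by
  unfold WCpt
  simp

theorem wcpt_singleton (x : X) : WCpt ({x} : Set X) := by
  unfold WCpt
  simp

theorem wcpt_finite {s : Set X} (hs : s.Finite) : WCpt s := (hs.image _).isCompact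

theorem wcpt_biUnion {ι : Type w} (s : Finset ι) {K : ι → Set X} (h : ∀ i ∈ s, WCpt (K i)) :
    WCpt (⋃ i ∈ s, K i) := by
  unfold WCpt at *
  rw [image_iUnion₂]
  exact s.isCompact_biUnion h

/-- the image of a compact space under a weakly continuous map. -/
theorem wcpt_range {A : Type w} [TopologicalSpace A] [CompactSpace A] {h : A → X}
    (H : ∀ f : X →L[ℝ] ℝ, Continuous fun a => f (h a)) : WCpt (range h) := by
  unfold WCpt
  rw [← range_comp]
  exact isCompact_range (wk_continuous H)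

/-- the image of a compact set under a weakly continuous map. -/
theorem wcpt_image {A : Type w} [TopologicalSpace A] {s : Set A} (hs : IsCompact s) {h : A → X}
    (H : ∀ f : X →L[ℝ] ℝ, ContinuousOn (fun a => f (h a)) s) : WCpt (h '' s) := by
  unfold WCpt
  rw [← image_comp]
  refine hs.image_of_continuousOn ?_
  rw [wk_inducing.continuousOn_iff]
  exact continuousOn_pi.2 fun f => H f

theorem WCpt.image {K : Set X} (hK : WCpt K) (T : X →L[ℝ] Y) : WCpt (T '' K) := by
  have h := wcpt_image (X := Y) (A := WeakSpace ℝ X) (s := toWeakSpace ℝ X '' K) hK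
    (h := fun y => T ((toWeakSpace ℝ X).symm y))
    (fun f => (wk_eval (f.comp T)).continuousOn)
  have h2 : (fun y => T ((toWeakSpace ℝ X).symm y)) '' (toWeakSpace ℝ X '' K) = T '' K := by
    rw [← image_comp]
    refine image_congr fun x _ => ?_
    simp
  rwa [h2] at h

theorem WCpt.smul {K : Set X} (hK : WCpt K) (c : ℝ) : WCpt ((fun x => c • x) '' K) :=
  hK.image (c • ContinuousLinearMap.id ℝ X)

theorem WCpt.neg {K : Set X} (hK : WCpt K) : WCpt ((fun x => -x) '' K) :=
  hK.image (-ContinuousLinearMap.id ℝ X)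

theorem WCpt.add {K L : Set X} (hK : WCpt K) (hL : WCpt L) :
    WCpt {z | ∃ x ∈ K, ∃ y ∈ L, z = x + y} := by
  have h := wcpt_image (X := X) (A := WeakSpace ℝ X × WeakSpace ℝ X)
    (s := (toWeakSpace ℝ X '' K) ×ˢ (toWeakSpace ℝ X '' L)) (IsCompact.prod hK hL)
    (h := fun p => (toWeakSpace ℝ X).symm p.1 + (toWeakSpace ℝ X).symm p.2)
    (fun f => by
      simp only [map_add]
      exact (((wk_eval f).comp continuous_fst).add ((wk_eval f).comp continuous_snd)).continuousOn)
  convert h using 1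
  ext z
  constructor
  · rintro ⟨x, hx, y, hy, rfl⟩
    exact ⟨(toWeakSpace ℝ X x, toWeakSpace ℝ X y), ⟨⟨x, hx, rfl⟩, ⟨y, hy, rfl⟩⟩, by simp⟩
  · rintro ⟨⟨a, b⟩, ⟨⟨x, hx, rfl⟩, ⟨y, hy, rfl⟩⟩, rfl⟩
    exact ⟨x, hx, y, hy, by simp⟩

/-- weakly closed subsets. -/
theorem WCpt.of_closed {K A : Set X} (hK : WCpt K) (hA : IsClosed (toWeakSpace ℝ X '' A))
    (h : A ⊆ K) : WCpt A :=
  IsCompact.of_isClosed_subset hK hA (image_mono h)

/-- norm closed convex sets are weakly closed. -/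
theorem wclosed_convex {A : Set X} (hc : Convex ℝ A) (hA : IsClosed A) :
    IsClosed (toWeakSpace ℝ X '' A) := by
  have := hc.toWeakSpace_closure ℝ
  rw [hA.closure_eq] at this
  rw [this]
  exact isClosed_closure

theorem WCpt.inter_convex {K A : Set X} (hK : WCpt K) (hc : Convex ℝ A) (hA : IsClosed A) :
    WCpt (K ∩ A) := by
  unfold WCpt at *
  rw [image_inter (toWeakSpace ℝ X).injective]
  exact hK.inter_right (wclosed_convex hc hA)

theorem WCpt.inter_ball {K : Set X} (hK : WCpt K) (r : ℝ) : WCpt {x | x ∈ K ∧ ‖x‖ ≤ r} := by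
  have := hK.inter_convex (convex_closedBall (0 : X) r) Metric.isClosed_closedBall
  convert this using 1
  ext x
  simp

theorem WCpt.inter_Bl {K : Set X} (hK : WCpt K) : WCpt (K ∩ Bl X) := hK.inter_ball 1

/-- every sequence in a weakly compact set has a weak cluster point along an ultrafilter. -/
theorem WCpt.cluster {K : Set X} (hK : WCpt K) {l : ℕ → X} (hl : ∀ n, l n ∈ K)
    (U : Ultrafilter ℕ) : ∃ z ∈ K, ∀ f : X →L[ℝ] ℝ, Tendsto (fun n => f (l n)) U (𝓝 (f z)) := by
  have h1 := hK.ultrafilter_le_nhds (U.map (fun n => toWeakSpace ℝ X (l n)))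
    (le_principal_iff.2 (Filter.mem_map.2 (Filter.univ_mem' fun n => ⟨l n, hl n, rfl⟩)))
  obtain ⟨_, ⟨z, hz, rfl⟩, h2⟩ := h1
  exact ⟨z, hz, wk_tendsto.1 h2⟩

/-- weakly compact sets are bounded. -/
theorem WCpt.bounded {K : Set X} (hK : WCpt K) : ∃ C : ℝ, ∀ x ∈ K, ‖x‖ ≤ C := by
  have h1 : ∀ f : X →L[ℝ] ℝ, ∃ C, ∀ x : K,
      ‖(NormedSpace.inclusionInDoubleDual ℝ X (x : X)) f‖ ≤ C := by
    intro f
    obtain ⟨C, hC⟩ := (hK.image_of_continuousOn (wk_eval f).continuousOn).isBounded.exists_norm_le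
    refine ⟨C, fun x => ?_⟩
    have := hC (f x) ⟨toWeakSpace ℝ X x, ⟨x, x.2, rfl⟩, by simp⟩
    simpa using this
  obtain ⟨C, hC⟩ := banach_steinhaus (g := fun x : K => NormedSpace.inclusionInDoubleDual ℝ X (x : X)) h1
  refine ⟨C, fun x hx => ?_⟩
  have h2 := hC ⟨x, hx⟩
  have h3 : ‖NormedSpace.inclusionInDoubleDual ℝ X x‖ = ‖x‖ :=
    (NormedSpace.inclusionInDoubleDualLi ℝ (E := X)).norm_map x
  rw [← h3]
  exact h2

/-- functionals separate points (Hahn-Banach). -/
theorem sep_points {x y : X} (h : ∀ f : X →L[ℝ] ℝ, f x = f y) : x = y := by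
  by_contra hne
  have h1 : x - y ≠ 0 := sub_ne_zero.2 hne
  obtain ⟨g, _, hg⟩ := exists_dual_vector ℝ (x - y) (norm_ne_zero_iff.2 h1)
  rw [map_sub, h g, sub_self] at hg
  exact (norm_ne_zero_iff.2 h1) (by simpa using hg.symm)

end

end Pool.Agent.Helper65.TU
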