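import Pool.Agent.Helper65.TU.Stmts4

/-! MP_5c2ead_an, project TU: quotients by, and extensions of, reflexive subspaces. -/

open Set Filter Topology

namespace Pool.Agent.Helper65.TU

universe u

/-- T is an operator of X onto Z with constant a whose kernel is reflexive. -/
structure RQ {X Z : Type u} [NormedAddCommGroup X] [NormedSpace ℝ X] [NormedAddCommGroup Z]
    [NormedSpace ℝ Z] (a : ℝ) (T : X →L[ℝ] Z) : Prop where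
  one : 1 ≤ a
  nrm : ∀ x, ‖T x‖ ≤ a * ‖x‖
  lift : ∀ z, ∃ x, T x = z ∧ ‖x‖ ≤ a * ‖z‖
  refl : Reflexive (LinearMap.ker (T : X →ₗ[ℝ] Z))

/-- RQ1: ultrafilter U on S = {x | T x ∈ M, ‖x‖ ≤ r}: Λ f = lim_U f, T x → m ∈ M weakly, m = T x₀; Λ f - f x₀ = 0 for f
vanishing on ker T (such an f is g ∘ T, g bounded by `lift`), so η g = Λ g' - g' x₀ (g' a Hahn-Banach extension of
g ∈ (ker T)*, `Real.exists_extension_norm_eq` / `exists_extension_norm_eq`) is well defined, linear, bounded: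
η = y₀ ∈ ker T, and Λ f = f (x₀ + y₀) for all f. -/
def ST_RQ1 : Prop := ∀ (X Z : Type u) [NormedAddCommGroup X] [NormedSpace ℝ X]
  [NormedAddCommGroup Z] [NormedSpace ℝ Z] (a : ℝ) (T : X →L[ℝ] Z), RQ a T →
  ∀ M : Set Z, WCpt M → ∀ r : ℝ, WCpt {x : X | T x ∈ M ∧ ‖x‖ ≤ r}

/-- RQ2 [RQ1]: F_X K = (1/a) {x : T x ∈ F_Z ((1/a) T K), ‖x‖ ≤ a}; for L take with t = a² δ' = δ/2 the set
L_Z = (1+t)⁻¹ (a T L ∩ (1+t) B), and M_X = {x : T x ∈ a M_Z, ‖x‖ ≤ 1 + ε}, ε_Z = ε/a². -/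
def ST_RQ2 : Prop := ∀ (X Z : Type u) [NormedAddCommGroup X] [NormedSpace ℝ X]
  [NormedAddCommGroup Z] [NormedSpace ℝ Z] (a : ℝ) (T : X →L[ℝ] Z), RQ a T →
  ∀ δ > (0 : ℝ), AMPd δ Z → AMPd (δ / (2 * a ^ 2)) X

/-- RQ3 [RQ1]: K' = (1/a) {x : T x ∈ K, ‖x‖ ≤ a}, F_Z K = (1/a) T (F_X K'); for L take with t = a² δ' = δ/2
L_X = (1+t)⁻¹ {v : T v ∈ a L, ‖v‖ ≤ 1 + t}, and M_Z = a T M_X, ε_X = ε/a². -/
def ST_RQ3 : Prop := ∀ (X Z : Type u) [NormedAddCommGroup X] [NormedSpace ℝ X]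
  [NormedAddCommGroup Z] [NormedSpace ℝ Z] (a : ℝ) (T : X →L[ℝ] Z), RQ a T →
  ∀ δ > (0 : ℝ), AMPd δ X → AMPd (δ / (2 * a ^ 2)) Z

end Pool.Agent.Helper65.TU
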