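import Pool.Agent.Helper65.TU.Stmts3
import Pool.Agent.Helper32.TU.CAMP

/-! CAMP with the explicit constant 1/4 (proof of helper32). -/

open Set Filter Topology

namespace Pool.Agent.Helper65.TU

universe u

open H32

theorem campd (h1 : ST_C0.{u}) (L : Type u) [TopologicalSpace L] [LocallyCompactSpace L]
    [T2Space L] : AMPd (1 / 4) (ZeroAtInftyContinuousMap L ℝ) := by
  intro ε hε
  obtain ⟨m, hm⟩ : ∃ m : ℕ, 1 / ε < m := exists_nat_gt _
  have hm0 : 0 < (m : ℝ) := lt_trans (by positivity) hm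
  have hme : 1 / (m : ℝ) ≤ ε := by
    rw [div_le_iff₀ hm0]
    have := (div_lt_iff₀ hε).1 hm
    linarith
  have hA : ∀ (i : ℕ) (K : Set (ZeroAtInftyContinuousMap L ℝ)), WCpt K →
      WCpt {y : ZeroAtInftyContinuousMap L ℝ | ∃ x ∈ K, ∀ t, y t = cl (m * x t - i)} := by
    intro i K hK
    refine h1 L K hK (fun v => cl (m * v - i)) m ?_ ?_
    · have : (0 : ℝ) ≤ i := Nat.cast_nonneg i
      exact cl_of_le (by linarith)
    · intro a b
      refine (cl_lip _ _).trans (le_of_eq ?_)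
      rw [show (m : ℝ) * a - i - (m * b - i) = m * (a - b) by ring, abs_mul, abs_of_pos hm0]
  have hB : ∀ (i : ℕ) (K : Set (ZeroAtInftyContinuousMap L ℝ)), WCpt K →
      WCpt {y : ZeroAtInftyContinuousMap L ℝ | ∃ x ∈ K, ∀ t, y t = cl (-(m * x t) - i)} := by
    intro i K hK
    refine h1 L K hK (fun v => cl (-(m * v) - i)) m ?_ ?_
    · have : (0 : ℝ) ≤ i := Nat.cast_nonneg i
      exact cl_of_le (by linarith)
    · intro a b
      refine (cl_lip _ _).trans (le_of_eq ?_)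
      rw [show -((m : ℝ) * a) - i - (-(m * b) - i) = -(m * (a - b)) by ring, abs_neg, abs_mul,
        abs_of_pos hm0]
  have hP : ∀ (K : Set (ZeroAtInftyContinuousMap L ℝ)), WCpt K →
      WCpt {y : ZeroAtInftyContinuousMap L ℝ | ∃ x ∈ K, ∀ t, y t = cl (2 * (x t - 1 / 4))} := by
    intro K hK
    refine h1 L K hK (fun v => cl (2 * (v - 1 / 4))) 2 ?_ ?_
    · exact cl_of_le (by norm_num)
    · intro a b
      refine (cl_lip _ _).trans (le_of_eq ?_)
      rw [show 2 * (a - 1 / 4) - 2 * (b - 1 / 4) = 2 * (a - b) by ring, abs_mul,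
        abs_of_pos (by norm_num : (0 : ℝ) < 2)]
  refine ⟨fun K => ⋃ i ∈ Finset.range m,
    ({y : ZeroAtInftyContinuousMap L ℝ | ∃ x ∈ K, ∀ t, y t = cl (m * x t - i)} ∪
      {y : ZeroAtInftyContinuousMap L ℝ | ∃ x ∈ K, ∀ t, y t = cl (-(m * x t) - i)}), ?_, ?_⟩
  · intro K hK _
    refine ⟨wc_biUnion _ _ fun i _ => wc_union _ _ (hA i K hK) (hB i K hK), ?_⟩
    intro y hy
    simp only [mem_iUnion, mem_union, mem_ofPred_eq] at hy
    obtain ⟨i, _, h | h⟩ := hy <;> obtain ⟨x, _, hx⟩ := h <;>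
    · show ‖y‖ ≤ 1
      rw [norm_le_iff y 1 zero_le_one]
      intro t
      rw [hx t, abs_of_nonneg (cl_nonneg _)]
      exact cl_le_one _
  · intro Q hQ _
    obtain ⟨R, hR⟩ : ∃ R : Set (ZeroAtInftyContinuousMap L ℝ),
      R = {y : ZeroAtInftyContinuousMap L ℝ | ∃ x ∈ Q, ∀ t, y t = cl (2 * (x t - 1 / 4))} := ⟨_, rfl⟩
    have hRw : WCpt R := by rw [hR]; exact hP Q hQ
    refine ⟨{y | ∃ p ∈ SM R m, ∃ q ∈ SM R m, y = (1 / (m : ℝ)) • p + (-(1 / (m : ℝ))) • q},
      wc_lin2 _ _ _ _ (wc_SM R hRw m) (wc_SM R hRw m), ?_⟩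
    intro K _ hK1 hnear x hx
    have hxn : ∀ t, |x t| ≤ 1 := (norm_le_iff x 1 zero_le_one).1 (hK1 hx)
    have hphi : ∀ i : ℕ, Continuous (fun v : ℝ => cl (m * v - i)) := fun i =>
      cl_cont.comp (by fun_prop)
    have hphi' : ∀ i : ℕ, Continuous (fun v : ℝ => cl (-(m * v) - i)) := fun i =>
      cl_cont.comp (by fun_prop)
    have hpsi : Continuous (fun v : ℝ => cl (2 * (v - 1 / 4))) := cl_cont.comp (by fun_prop)
    have hz : ∀ i : ℕ, cl (m * 0 - i) = 0 := fun i => by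
      have : (0 : ℝ) ≤ i := Nat.cast_nonneg i
      exact cl_of_le (by linarith)
    have hz' : ∀ i : ℕ, cl (-(m * 0) - i) = 0 := fun i => by
      have : (0 : ℝ) ≤ i := Nat.cast_nonneg i
      exact cl_of_le (by linarith)
    have hzp : cl (2 * (0 - 1 / 4)) = 0 := cl_of_le (by norm_num)
    have ha : ∀ i : ℕ, ∃ l ∈ Q, i < m → ∀ t, |cl (m * x t - i) - l t| ≤ 1 / 4 := by
      intro i
      by_cases hi : i < m
      · obtain ⟨l, hl, hd⟩ := hnear (cmpo _ (hphi i) (hz i) x) (by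
          simp only [mem_iUnion]
          exact ⟨i, Finset.mem_range.2 hi, Or.inl ⟨x, hx, fun t => rfl⟩⟩)
        refine ⟨l, hl, fun _ t => ?_⟩
        exact (norm_le_iff _ _ (by norm_num)).1 hd t
      · obtain ⟨l, hl, _⟩ := hnear (cmpo _ (hphi 0) (hz 0) x) (by
          simp only [mem_iUnion]
          refine ⟨0, Finset.mem_range.2 ?_, Or.inl ⟨x, hx, fun t => rfl⟩⟩
          exact_mod_cast hm0)
        exact ⟨l, hl, fun h => absurd h hi⟩
    have hb : ∀ i : ℕ, ∃ l ∈ Q, i < m → ∀ t, |cl (-(m * x t) - i) - l t| ≤ 1 / 4 := by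
      intro i
      by_cases hi : i < m
      · obtain ⟨l, hl, hd⟩ := hnear (cmpo _ (hphi' i) (hz' i) x) (by
          simp only [mem_iUnion]
          exact ⟨i, Finset.mem_range.2 hi, Or.inr ⟨x, hx, fun t => rfl⟩⟩)
        refine ⟨l, hl, fun _ t => ?_⟩
        exact (norm_le_iff _ _ (by norm_num)).1 hd t
      · obtain ⟨l, hl, _⟩ := hnear (cmpo _ (hphi 0) (hz 0) x) (by
          simp only [mem_iUnion]
          refine ⟨0, Finset.mem_range.2 ?_, Or.inl ⟨x, hx, fun t => rfl⟩⟩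
          exact_mod_cast hm0)
        exact ⟨l, hl, fun h => absurd h hi⟩
    choose la hla hla' using ha
    choose lb hlb hlb' using hb
    refine ⟨_, ⟨∑ i ∈ Finset.range m, cmpo _ hpsi hzp (la i),
      sum_mem R (fun i => cmpo _ hpsi hzp (la i)) m (fun i _ => by
        rw [hR]; exact ⟨la i, hla i, fun t => rfl⟩),
      ∑ i ∈ Finset.range m, cmpo _ hpsi hzp (lb i),
      sum_mem R (fun i => cmpo _ hpsi hzp (lb i)) m (fun i _ => by
        rw [hR]; exact ⟨lb i, hlb i, fun t => rfl⟩), rfl⟩, ?_⟩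
    refine le_trans ?_ hme
    rw [norm_le_iff _ _ (by positivity)]
    intro t
    have h2 := point m hm0 (x t) (hxn t) (fun i => la i t) (fun i => lb i t)
      (fun i hi => hla' i hi t) (fun i hi => hlb' i hi t)
    convert h2 using 2
    simp only [ZeroAtInftyContinuousMap.coe_sub, ZeroAtInftyContinuousMap.coe_add,
      ZeroAtInftyContinuousMap.coe_smul, Pi.sub_apply, Pi.add_apply, Pi.smul_apply, coe_sum,
      smul_eq_mul]
    rw [sub_eq_add_neg (1 / (m : ℝ) * _), ← neg_mul]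
    rfl

end Pool.Agent.Helper65.TU
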