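import Pool.Agent.Helper65.TU.Para

/-! MP_5c2ead_an, project TU: complemented subspaces. -/

open Set Filter Topology

namespace Pool.Agent.Helper65.TU

universe u v

theorem sld_compl (X Y : Type u) [NormedAddCommGroup X] [NormedSpace ℝ X] [NormedAddCommGroup Y]
    [NormedSpace ℝ Y] (R : X → X → Prop) (C : ℝ) (hS : Sld X R C) (hC : 0 ≤ C) (T : Y →L[ℝ] X)
    (P : X →L[ℝ] Y) (a : ℝ) (ha : 1 ≤ a) (hPT : ∀ y, P (T y) = y) (hT : ∀ y, ‖T y‖ ≤ a * ‖y‖)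
    (hP : ∀ x, ‖P x‖ ≤ a * ‖x‖) :
    Sld Y (fun y x => ∃ y', y = P y' ∧ R y' (T x)) (C * a ^ 2) := by
  have ha0 : 0 ≤ a := zero_le_one.trans ha
  refine ⟨?_, ?_, ?_⟩
  · rintro x _ ⟨y', rfl, h⟩
    have h1 := hS.bd _ _ h
    calc ‖P y'‖ ≤ a * ‖y'‖ := hP y'
      _ ≤ a * (C * ‖T x‖) := mul_le_mul_of_nonneg_left h1 ha0
      _ ≤ a * (C * (a * ‖x‖)) :=
        mul_le_mul_of_nonneg_left (mul_le_mul_of_nonneg_left (hT x) hC) ha0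
      _ = C * a ^ 2 * ‖x‖ := by ring
  · intro x l
    obtain ⟨x', x'', h1, h2, h3, h4⟩ := hS.dec (T x) (T l)
    refine ⟨P x', P x'', ?_, ⟨x', rfl, h2⟩, ⟨x'', rfl, h3⟩, ⟨x'', rfl, ?_⟩⟩
    · rw [← map_add, ← h1, hPT]
    · rw [map_sub]
      exact h4
  · intro K hK
    obtain ⟨K', h1, h2⟩ := hS.hull _ (hK.image T)
    refine ⟨P '' K', h1.image P, ?_⟩
    rintro x hx _ ⟨y', rfl, h⟩
    exact ⟨y', h2 (T x) ⟨x, hx, rfl⟩ y' h, rfl⟩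

theorem uncdc (Γ : Type v) (X Y : Type u) [NormedAddCommGroup X] [NormedSpace ℝ X]
    [CompleteSpace X] [NormedAddCommGroup Y] [NormedSpace ℝ Y] (e : Γ → X) (C : ℝ) (hC : 1 ≤ C)
    (h : UB e C) (T : Y →L[ℝ] X)
    (P : X →L[ℝ] Y) (a : ℝ) (ha : 1 ≤ a) (hPT : ∀ y, P (T y) = y) (hT : ∀ y, ‖T y‖ ≤ a * ‖y‖)
    (hP : ∀ x, ‖P x‖ ≤ a * ‖x‖) : AMPd (1 / (4 * C * a ^ 2)) Y := by
  have h1 : CS e (S12.coo e) (max C 1) := S12.mul' e C h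
  rw [max_eq_left hC] at h1
  have h2 := amprd Y _ _ (by positivity) (sld_compl X Y _ _ (fin_UNC Γ X e _ _ h1)
    (by positivity) T P a ha hPT hT hP)
  have h3 : 1 / (2 * (2 * C * a ^ 2)) = 1 / (4 * C * a ^ 2) := by ring
  rwa [h3] at h2

theorem latdc (X Y : Type u) [NormedAddCommGroup X] [NormedSpace ℝ X] [Lattice X]
    [HasSolidNorm X] [IsOrderedAddMonoid X] [NormedAddCommGroup Y] [NormedSpace ℝ Y]
    (h : ∀ K : Set X, WCpt K → ∃ K', WCpt K' ∧ ∀ x ∈ K, ∀ y, |y| ≤ |x| → y ∈ K')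
    (T : Y →L[ℝ] X)
    (P : X →L[ℝ] Y) (a : ℝ) (ha : 1 ≤ a) (hPT : ∀ y, P (T y) = y) (hT : ∀ y, ‖T y‖ ≤ a * ‖y‖)
    (hP : ∀ x, ‖P x‖ ≤ a * ‖x‖) :
    AMPd (1 / (2 * a ^ 2)) Y := by
  have h2 := amprd Y _ _ (by positivity) (sld_compl X Y _ 1 (st_LAT X h)
    (by positivity) T P a ha hPT hT hP)
  rwa [one_mul] at h2

end Pool.Agent.Helper65.TU
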