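import Pool.Agent.Helper65.TU.Stmts2

open Set Filter Topology

namespace Pool.Agent.Helper65.TU

universe u v

theorem st_ISO : ST_ISO.{u} := by
  intro X Y _ _ _ _ T ⟨δ, hδ, H⟩
  set TX : X →L[ℝ] Y := (T : X →L[ℝ] Y) with hTX
  set TY : Y →L[ℝ] X := (T.symm : Y →L[ℝ] X) with hTY
  have hxy : ∀ y, TX (TY y) = y := fun y => T.apply_symm_apply y
  have hyx : ∀ x, TY (TX x) = x := fun x => T.symm_apply_apply x
  obtain ⟨a, ha1, haX, haY⟩ : ∃ a : ℝ, 1 ≤ a ∧ ‖TX‖ ≤ a ∧ ‖TY‖ ≤ a :=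
    ⟨max 1 (max ‖TX‖ ‖TY‖), le_max_left _ _, (le_max_left _ _).trans (le_max_right _ _),
      (le_max_right _ _).trans (le_max_right _ _)⟩
  have ha0 : 0 < a := by linarith
  have hbX : ∀ x, ‖TX x‖ ≤ a * ‖x‖ := fun x =>
    (TX.le_opNorm x).trans (mul_le_mul_of_nonneg_right haX (norm_nonneg _))
  have hbY : ∀ y, ‖TY y‖ ≤ a * ‖y‖ := fun y =>
    (TY.le_opNorm y).trans (mul_le_mul_of_nonneg_right haY (norm_nonneg _))
  refine ⟨δ / (2 * a ^ 2), by positivity, fun ε hε => ?_⟩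
  obtain ⟨F, hF, hM⟩ := H (ε / a ^ 2) (by positivity)
  let P : Y →L[ℝ] X := a⁻¹ • TY
  let Q : X →L[ℝ] Y := a⁻¹ • TX
  have hP : ∀ y, P y = a⁻¹ • TY y := fun y => rfl
  have hQ : ∀ x, Q x = a⁻¹ • TX x := fun x => rfl
  have hPn : ∀ y, ‖P y‖ ≤ ‖y‖ := by
    intro y
    rw [hP, norm_smul, Real.norm_of_nonneg (inv_nonneg.2 ha0.le)]
    calc a⁻¹ * ‖TY y‖ ≤ a⁻¹ * (a * ‖y‖) :=
          mul_le_mul_of_nonneg_left (hbY y) (inv_nonneg.2 ha0.le)
      _ = ‖y‖ := by field_simp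
  have hQn : ∀ x, ‖Q x‖ ≤ ‖x‖ := by
    intro y
    rw [hQ, norm_smul, Real.norm_of_nonneg (inv_nonneg.2 ha0.le)]
    calc a⁻¹ * ‖TX y‖ ≤ a⁻¹ * (a * ‖y‖) :=
          mul_le_mul_of_nonneg_left (hbX y) (inv_nonneg.2 ha0.le)
      _ = ‖y‖ := by field_simp
  have hPK : ∀ K : Set Y, WCpt K → K ⊆ Bl Y → WCpt (P '' K) ∧ P '' K ⊆ Bl X := by
    intro K hK hKB
    refine ⟨hK.image P, ?_⟩
    rintro _ ⟨y, hy, rfl⟩
    exact (hPn y).trans (hKB hy)
  refine ⟨fun K => Q '' (F (P '' K)), fun K hK hKB => ?_, fun L hL hLB => ?_⟩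
  · obtain ⟨h1, h2⟩ := hPK K hK hKB
    obtain ⟨h3, h4⟩ := hF _ h1 h2
    refine ⟨h3.image Q, ?_⟩
    rintro _ ⟨x, hx, rfl⟩
    exact (hQn x).trans (h4 hx)
  · set r : ℝ := 1 + δ / 2 with hr
    have hr0 : 0 < r := by positivity
    let L1 : Set X := {x | x ∈ (a • TY) '' L ∧ ‖x‖ ≤ r}
    let L2 : Set X := (fun x => r⁻¹ • x) '' L1
    have hL1 : WCpt L1 := (hL.image (a • TY)).inter_ball r
    have hL2 : WCpt L2 := hL1.smul r⁻¹
    have hL2B : L2 ⊆ Bl X := by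
      rintro _ ⟨x, hx, rfl⟩
      show ‖r⁻¹ • x‖ ≤ 1
      rw [norm_smul, Real.norm_of_nonneg (inv_nonneg.2 hr0.le), inv_mul_le_iff₀ hr0, mul_one]
      exact hx.2
    obtain ⟨M, hM1, hM2⟩ := hM L2 hL2 hL2B
    refine ⟨(a • TX) '' M, hM1.image _, fun K hK hKB hN => ?_⟩
    obtain ⟨h1, h2⟩ := hPK K hK hKB
    obtain ⟨h3, h4⟩ := hF _ h1 h2
    have hN1 : Near δ (F (P '' K)) L2 := by
      intro x hx
      obtain ⟨l, hl, hxl⟩ := hN (Q x) ⟨x, hx, rfl⟩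
      have e1 : x = (a • TY) (Q x) := by
        show x = a • TY (Q x)
        rw [hQ, map_smul, hyx, smul_smul, mul_inv_cancel₀ ha0.ne', one_smul]
      have e2 : ‖x - (a • TY) l‖ ≤ δ / 2 := by
        have e3 : x - (a • TY) l = a • TY (Q x - l) := by
          conv_lhs => rw [e1]
          show a • TY (Q x) - a • TY l = _
          rw [map_sub, smul_sub]
        rw [e3, norm_smul, Real.norm_of_nonneg ha0.le]
        calc a * ‖TY (Q x - l)‖ ≤ a * (a * (δ / (2 * a ^ 2))) :=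
              mul_le_mul_of_nonneg_left ((hbY _).trans (mul_le_mul_of_nonneg_left hxl ha0.le)) ha0.le
          _ = δ / 2 := by field_simp
      have e4 : ‖x‖ ≤ 1 := h4 hx
      have e5 : ‖(a • TY) l‖ ≤ r := by
        have := norm_sub_norm_le ((a • TY) l) x
        have e6 : ‖(a • TY) l - x‖ ≤ δ / 2 := by rw [norm_sub_rev]; exact e2
        rw [hr]
        linarith
      refine ⟨r⁻¹ • (a • TY) l, ⟨_, ⟨⟨l, hl, rfl⟩, e5⟩, rfl⟩, ?_⟩
      have e7 : ‖(a • TY) l - r⁻¹ • (a • TY) l‖ ≤ δ / 2 := by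
        have e8 : (a • TY) l - r⁻¹ • (a • TY) l = (1 - r⁻¹) • (a • TY) l := by
          rw [sub_smul, one_smul]
        have e9 : 0 ≤ 1 - r⁻¹ := by
          rw [sub_nonneg]
          exact inv_le_one_of_one_le₀ (by rw [hr]; linarith)
        rw [e8, norm_smul, Real.norm_of_nonneg e9]
        calc (1 - r⁻¹) * ‖(a • TY) l‖ ≤ (1 - r⁻¹) * r := mul_le_mul_of_nonneg_left e5 e9
          _ = r - 1 := by field_simp
          _ = δ / 2 := by rw [hr]; ring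
      calc ‖x - r⁻¹ • (a • TY) l‖ = ‖(x - (a • TY) l) + ((a • TY) l - r⁻¹ • (a • TY) l)‖ := by
            congr 1; abel
        _ ≤ δ / 2 + δ / 2 := (norm_add_le _ _).trans (add_le_add e2 e7)
        _ = δ := by ring
    have hN2 := hM2 _ h1 h2 hN1
    intro y hy
    obtain ⟨m, hm, hym⟩ := hN2 (P y) ⟨y, hy, rfl⟩
    refine ⟨(a • TX) m, ⟨m, hm, rfl⟩, ?_⟩
    have e1 : y = (a • TX) (P y) := by
      show y = a • TX (P y)
      rw [hP, map_smul, hxy, smul_smul, mul_inv_cancel₀ ha0.ne', one_smul]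
    have e3 : y - (a • TX) m = a • TX (P y - m) := by
      conv_lhs => rw [e1]
      show a • TX (P y) - a • TX m = _
      rw [map_sub, smul_sub]
    rw [e3, norm_smul, Real.norm_of_nonneg ha0.le]
    calc a * ‖TX (P y - m)‖ ≤ a * (a * (ε / a ^ 2)) :=
          mul_le_mul_of_nonneg_left ((hbX _).trans (mul_le_mul_of_nonneg_left hym ha0.le)) ha0.le
      _ = ε := by field_simp

end Pool.Agent.Helper65.TU
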