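import Pool.Agent.Helper65.TU.Stmts2
import Pool.Agent.Helper65.TU.ISO
import Pool.Agent.Helper84.TU.AMPR
import Pool.Agent.Helper20.TU.C0
import Pool.Agent.Helper32.TU.CAMP
import Pool.Agent.Helper63.TU.ES
import Pool.Agent.Helper56.TU.GL1
import Pool.Agent.Helper60.TU.GRO
import Pool.Agent.Helper44.TU.JAM
import Pool.Agent.Helper1.TU.L1
import Pool.Agent.Helper4.TU.LAT
import Pool.Agent.Helper2.TU.MAZ
import Pool.Agent.Helper12.TU.MUL
import Pool.Agent.Helper77.TU.PROD
import Pool.Agent.Helper47.TU.RED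
import Pool.Agent.Helper4.TU.REV
import Pool.Agent.Helper77.TU.RFL
import Pool.Agent.Helper13.TU.SCH
import Pool.Agent.Helper92.TU.SOL
import Pool.Agent.Helper97.TU.TAIL
import Pool.Agent.Helper93.TU.UNC

open Set Filter Topology

namespace Pool.Agent.Helper65.TU

universe u v

theorem fin_TAIL : ST_TAIL.{u, v} := st_TAIL st_ES st_L1 st_SCH

theorem fin_SOL : ST_SOL.{u, v} := st_SOL fin_TAIL st_L1

theorem fin_UNC : ST_UNC.{u, v} := st_UNC fin_SOL

theorem fin_C0 : ST_C0.{u} := st_C0 (st_GRO (st_GL1 st_ES))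

theorem fin_CAMP : ST_CAMP.{u} := st_CAMP fin_C0

theorem fin_RED : ST_RED.{u} := st_RED st_JAM st_MAZ

/-- an unconditional basis gives the amplification property. -/
theorem amp_unc (Γ : Type v) (X : Type u) [NormedAddCommGroup X] [NormedSpace ℝ X]
    [CompleteSpace X] (e : Γ → X) (C : ℝ) (h : UB e C) : AMP X := by
  obtain ⟨co, C', h'⟩ := st_MUL Γ X e C h
  exact st_AMPR X _ _ (by have := h'.pos; positivity) (fin_UNC Γ X e co C' h')

theorem amp_lat (X : Type u) [NormedAddCommGroup X] [NormedSpace ℝ X] [Lattice X]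
    [HasSolidNorm X] [IsOrderedAddMonoid X]
    (h : ∀ K : Set X, WCpt K → ∃ K', WCpt K' ∧ ∀ x ∈ K, ∀ y, |y| ≤ |x| → y ∈ K') : AMP X :=
  st_AMPR X _ _ one_pos (st_LAT X h)

end Pool.Agent.Helper65.TU
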