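import Pool.Agent.Helper65.TU.Para
import Pool.Agent.Helper60.TU.SHK
import Pool.Agent.Helper16.TU.LPW
import Pool.Agent.Helper84.TU.LPF

open Set Filter Topology

namespace Pool.Agent.Helper65.TU

universe u v

theorem fin_LPA : ST_LPA.{u, v} := st_LPA (st_LPW st_LPF) st_SHK

end Pool.Agent.Helper65.TU
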