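import Pool.Agent.Helper65.TU.Stmts3

/-! MP_5c2ead_an, project TU: l_1-sums and SWCG spaces. -/

open Set Filter Topology
open scoped ENNReal

namespace Pool.Agent.Helper65.TU

universe u v

/-- T1: uniform tails of weakly compact sets in an l_1-sum (y runs over the vectors dominated by x and vanishing on F).
Gliding hump: otherwise x_n ∈ K and increasing finite F_n with Σ_(g ∉ F_n) ‖x_n g‖ > ε, Σ_(g ∉ F_(n+1)) ‖x_n g‖ < ε/16;
by ES (ST_ES) a subsequence x_n converges weakly to z; thin out so that also Σ_(g ∉ F_n, g in the union of the F_k) ‖z g‖ is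
small (z is summable) and for the blocks G_k = F_(n_k + 1) \ F_(n_k), with f = Σ over k of norming functionals of
(x_(n_k) - z) g on G_k (norm ≤ 1), choose n_k inductively with |(f restricted to G_1 ∪ .. ∪ G_(k-1)) (x_(n_k) - z)| < ε/16:
f (x_(n_k) - z) ≥ ε/2 for all k, contradiction. -/
def ST_T1 : Prop := ∀ (Γ : Type v) (X : Γ → Type u) [∀ g, NormedAddCommGroup (X g)]
  [∀ g, NormedSpace ℝ (X g)] (K : Set (lp X 1)), WCpt K → ∀ ε > (0 : ℝ), ∃ F : Finset Γ,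
  ∀ x ∈ K, ∀ y : lp X 1, (∀ g ∈ F, y g = 0) → (∀ g, ‖y g‖ ≤ ‖x g‖) → ‖y‖ ≤ ε

/-- H1 [ST_T1]: H = {z : z g ∈ A g for all g, and for all n the part of z off F_n has norm ≤ c/(n+1)}, F_n from T1
(ε = 1/(n+1)); weakly compact by ultrafilters: coordinatewise weak limits, norms of tails are lower semicontinuous. -/
def ST_H1 : Prop := ∀ (Γ : Type v) (X : Γ → Type u) [∀ g, NormedAddCommGroup (X g)]
  [∀ g, NormedSpace ℝ (X g)] (A : (g : Γ) → Set (X g)), (∀ g, WCpt (A g)) →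
  ∀ (K : Set (lp X 1)), WCpt K → ∀ c : ℝ, 0 ≤ c → ∃ H : Set (lp X 1), WCpt H ∧
    ∀ y : lp X 1, (∀ g, y g ∈ A g) → (∃ x ∈ K, ∀ g, ‖y g‖ ≤ c * ‖x g‖) → y ∈ H

/-- LPA1 [ST_H1, ST_SHK]: the l_1-sum of spaces with AMPd δ has AMPd (δ/32). -/
def ST_LPA1 : Prop := ∀ (Γ : Type v) (X : Γ → Type u) [∀ g, NormedAddCommGroup (X g)]
  [∀ g, NormedSpace ℝ (X g)], ∀ δ > (0 : ℝ), δ ≤ 1 → (∀ g, AMPd δ (X g)) → AMPd (δ / 32) (lp X 1)

/-- JAMU: James' sequence with the uniform constant 1/8 (Helper44/TU/JAM.lean, with F0 from `riesz_lemma`, r = 1/2,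
applied to the closed proper subspace J X of the bidual). -/
def ST_JAMU : Prop := ∀ (X : Type u) [NormedAddCommGroup X] [NormedSpace ℝ X] [CompleteSpace X],
  ¬ Reflexive X → ∃ (x : ℕ → X) (f : ℕ → X →L[ℝ] ℝ), JS (1 / 8) x f

/-- SWCG with generating set W. -/
def SWCGW {X : Type u} [NormedAddCommGroup X] [NormedSpace ℝ X] (W : Set X) : Prop :=
  WCpt W ∧ ∀ ε > (0 : ℝ), ∀ L : Set X, WCpt L → ∃ n : ℕ, ∀ x ∈ L, ∃ w ∈ W, ‖x - (n : ℝ) • w‖ ≤ ε

/-- SWC [ST_JAMU, ST_MAZ, ST_RFL-like]: F K = {x_0, .., x_n}, n = least number for K and ε, M = union over n ≤ n₀ of n W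
(reflexive case: M = ball, see Helper77/TU/RFL.lean `rfl_ball`). -/
def ST_SWC : Prop := ∀ (X : Type u) [NormedAddCommGroup X] [NormedSpace ℝ X] [CompleteSpace X]
  (W : Set X), SWCGW W → AMPd (1 / 32) X

end Pool.Agent.Helper65.TU
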