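import Pool.Agent.Helper65.TU.LPA
import Pool.Agent.Helper65.TU.Stmts4

open Set Filter Topology
open scoped ENNReal

namespace Pool.Agent.Helper65.TU

universe u v

namespace LPA

section
variable {Γ : Type v} {X : Γ → Type u} [∀ g, NormedAddCommGroup (X g)] [∀ g, NormedSpace ℝ (X g)]
  {F : ∀ g, Set (X g) → Set (X g)}

theorem step1 (hS : ST_SHK.{u}) (hH : ∀ A : (g : Γ) → Set (X g), (∀ g, WCpt (A g)) →
    ∀ (K : Set (lp X 1)), WCpt K → ∀ c : ℝ, 0 ≤ c → ∃ H : Set (lp X 1), WCpt H ∧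
    ∀ y : lp X 1, (∀ g, y g ∈ A g) → (∃ x ∈ K, ∀ g, ‖y g‖ ≤ c * ‖x g‖) → y ∈ H)
    (Gf Tf : Set (lp X 1) → Set (lp X 1))
    (hG : ∀ K, WCpt K → K ⊆ Bl (lp X 1) → K ⊆ Gf K ∧ ∀ y : lp X 1, ‖y‖ ≤ 1 → (∀ g, y g ∈ A F K g) →
      (∃ x ∈ K, ∀ g, ‖y g‖ ≤ ‖x g‖) → y ∈ Gf K)
    (hT : ∀ K, WCpt K → ∀ y : lp X 1, ‖y‖ ≤ 1 →
      (∀ g, y g ∈ ({0} ∪ (fun w => (4 : ℝ) • w) '' (ev g '' K) : Set (X g))) →
      (∃ x ∈ K, ∀ g, ‖y g‖ ≤ 4 * ‖x g‖) → y ∈ Tf K) {δ ε₁ : ℝ} (hδ : 0 < δ) (hδ1 : δ ≤ 1)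
    (hε : 0 < ε₁) (hε1 : ε₁ ≤ 1)
    (hF : ∀ g, ∀ K, WCpt K → K ⊆ Bl (X g) → WCpt (F g K) ∧ F g K ⊆ Bl (X g))
    (hM : ∀ g, ∀ L, WCpt L → L ⊆ Bl (X g) → ∃ M, WCpt M ∧
      ∀ K, WCpt K → K ⊆ Bl (X g) → Near δ (F g K) L → Near ε₁ K M)
    (L : Set (lp X 1)) (hL : WCpt L) : ∃ M₁ : Set (lp X 1), WCpt M₁ ∧
      ∀ K, WCpt K → K ⊆ Bl (lp X 1) → Near (δ / 32) (Gf K) L → ∀ x ∈ K, ∃ z ∈ M₁, ∃ x' ∈ Tf K,
        ‖x - (z + (1 / 4 : ℝ) • x')‖ ≤ 2 * ε₁ := by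
  classical
  set r : ℝ := 1 + δ / 2 with hr
  have hr0 : 0 < r := by positivity
  let L' : ∀ g : Γ, ℕ → Set (X g) := fun g k =>
    (fun w => r⁻¹ • w) '' {w | w ∈ (fun w => (2 : ℝ) ^ (k + 1) • w) '' (ev g '' L) ∧ ‖w‖ ≤ r}
  have hL'1 : ∀ g k, WCpt (L' g k) := fun g k =>
    (((hL.image (ev g)).smul _).inter_ball r).smul _
  have hL'2 : ∀ g k, L' g k ⊆ Bl (X g) := by
    rintro g k _ ⟨w, hw, rfl⟩
    show ‖r⁻¹ • w‖ ≤ 1
    rw [norm_smul, Real.norm_of_nonneg (inv_nonneg.2 hr0.le), inv_mul_le_iff₀ hr0, mul_one]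
    exact hw.2
  choose M hM1 hM2 using fun g k => hM g (L' g k) (hL'1 g k) (hL'2 g k)
  let Sg : ∀ g : Γ, Set (X g) := fun g =>
    {0} ∪ ⋃ k : ℕ, (fun m => (1 / 3 * (1 / 2 : ℝ) ^ k) • m) '' {m | m ∈ M g k ∧ ‖m‖ ≤ 2}
  have hSg : ∀ g, WCpt (Sg g) := by
    intro g
    refine hS (X g) _ (fun k => 2 * (1 / 2 : ℝ) ^ k) (fun k => ((hM1 g k).inter_ball 2).smul _)
      (fun k x hx => ?_) ?_
    · obtain ⟨m, hm, rfl⟩ := hx
      beta_reduce
      rw [norm_smul, Real.norm_of_nonneg (by positivity)]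
      have h2 : ‖m‖ ≤ 2 := hm.2
      have h3 : (0 : ℝ) < (1 / 2 : ℝ) ^ k := by positivity
      nlinarith [norm_nonneg m]
    · have := (tendsto_pow_atTop_nhds_zero_of_lt_one (r := (1 / 2 : ℝ)) (by norm_num)
        (by norm_num)).const_mul 2
      simpa using this
  obtain ⟨H, hH1, hH2⟩ := hH Sg hSg L hL 2 (by norm_num)
  refine ⟨(fun y => (3 : ℝ) • y) '' H, hH1.smul 3, fun K hK hKB hN x hx => ?_⟩
  obtain ⟨hG1, hG2⟩ := hG K hK hKB
  obtain ⟨l0, hl0, hxl0⟩ := hN x (hG1 hx)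
  have hx1 : ‖x‖ ≤ 1 := hKB hx
  have hxg : ∀ g, ‖x g‖ ≤ 1 := fun g => (lp.norm_apply_le_norm (p_ne (p := 1)) x g).trans hx1
  have hκ : ∀ g, ∃ k : ℕ, x g ≠ 0 → (1 / 2 : ℝ) ^ (k + 1) < ‖x g‖ ∧ ‖x g‖ ≤ (1 / 2 : ℝ) ^ k := by
    intro g
    by_cases h : x g = 0
    · exact ⟨0, fun h' => (h' h).elim⟩
    · obtain ⟨k, hk⟩ := exists_nat_pow_near_of_lt_one (norm_pos_iff.2 h) (hxg g)
        (y := (1 / 2 : ℝ)) (by norm_num) (by norm_num)
      exact ⟨k, fun _ => hk⟩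
  choose κ hκ using hκ
  let good : Γ → Prop := fun g => ∀ u ∈ F g (D K g (κ g)), ∃ l ∈ L,
    ‖(1 / 2 : ℝ) ^ (κ g + 1) • u - l g‖ ≤ δ / 2 * (1 / 2 : ℝ) ^ (κ g + 1)
  have hbad : ∀ g, ∃ u : X g, ¬ good g → u ∈ F g (D K g (κ g)) ∧ ∀ l ∈ L,
      δ / 2 * (1 / 2 : ℝ) ^ (κ g + 1) < ‖(1 / 2 : ℝ) ^ (κ g + 1) • u - l g‖ := by
    intro g
    by_cases h : good g
    · exact ⟨0, fun h' => (h' h).elim⟩
    · have h' := h
      simp only [good, not_forall, not_exists, not_and, not_le] at h'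
      obtain ⟨u, hu, hu2⟩ := h'
      exact ⟨u, fun _ => ⟨hu, hu2⟩⟩
  choose u hu using hbad
  let B : Γ → Prop := fun g => x g ≠ 0 ∧ ¬ good g
  let B0 : Γ → Prop := fun g => ‖l0 g‖ < ‖x g‖ / 2
  obtain ⟨y, hy, hyn⟩ := dom x (fun g => if B g then (1 / 2 : ℝ) ^ (κ g + 1) • u g else 0) 1
    zero_le_one (by
      intro g
      split_ifs with hB
      · have h1 := (hu g hB.2).1
        have h2 : ‖u g‖ ≤ 1 := (hF g _ (D_wc hK g (κ g)) (D_bl K g (κ g))).2 h1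
        rw [norm_smul, Real.norm_of_nonneg (by positivity), one_mul]
        exact (mul_le_of_le_one_right (by positivity) h2).trans (hκ g hB.1).1.le
      · simp)
  have hyx : ∀ g, ‖y g‖ ≤ ‖x g‖ := by
    intro g
    rw [hy g]
    split_ifs with hB
    · have h1 := (hu g hB.2).1
      have h2 : ‖u g‖ ≤ 1 := (hF g _ (D_wc hK g (κ g)) (D_bl K g (κ g))).2 h1
      rw [norm_smul, Real.norm_of_nonneg (by positivity)]
      exact (mul_le_of_le_one_right (by positivity) h2).trans (hκ g hB.1).1.le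
    · simp
  have hyG : y ∈ Gf K := by
    refine hG2 y (by linarith) (fun g => ?_) ⟨x, hx, hyx⟩
    rw [hy g]
    split_ifs with hB
    · exact Or.inr (mem_iUnion.2 ⟨κ g, u g, (hu g hB.2).1, rfl⟩)
    · exact Or.inl rfl
  obtain ⟨l, hl, hyl⟩ := hN y hyG
  obtain ⟨xb, hxb, hxbn⟩ := dom (y - l) (fun g => if B g then x g else 0) (4 / δ) (by positivity) (by
      intro g
      split_ifs with hB
      · have h1 := (hu g hB.2).2 l hl
        have h2 := (hκ g hB.1).2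
        have h3 : (y - l : lp X 1) g = (1 / 2 : ℝ) ^ (κ g + 1) • u g - l g := by
          rw [lp.coeFn_sub, Pi.sub_apply, hy g, if_pos hB]
        rw [h3]
        have h4 : (1 / 2 : ℝ) ^ κ g = 4 / δ * (δ / 2 * (1 / 2 : ℝ) ^ (κ g + 1)) := by
          rw [pow_succ]
          field_simp
          ring
        calc ‖x g‖ ≤ (1 / 2 : ℝ) ^ κ g := h2
          _ = 4 / δ * (δ / 2 * (1 / 2 : ℝ) ^ (κ g + 1)) := h4
          _ ≤ _ := mul_le_mul_of_nonneg_left h1.le (by positivity)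
      · simp only [norm_zero]
        positivity)
  have hxb8 : ‖xb‖ ≤ 1 / 8 := by
    refine hxbn.trans ?_
    calc 4 / δ * ‖y - l‖ ≤ 4 / δ * (δ / 32) := mul_le_mul_of_nonneg_left hyl (by positivity)
      _ = 1 / 8 := by field_simp; norm_num
  obtain ⟨xc, hxc, hxcn⟩ := dom (x - l0) (fun g => if ¬ B g ∧ B0 g then x g else 0) 2 (by norm_num)
    (by
      intro g
      split_ifs with hB
      · have h1 : ‖l0 g‖ < ‖x g‖ / 2 := hB.2
        have h3 : (x - l0 : lp X 1) g = x g - l0 g := rfl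
        rw [h3]
        have h4 := norm_sub_norm_le (x g) (l0 g)
        linarith
      · simp only [norm_zero]
        positivity)
  have hxc8 : ‖xc‖ ≤ 1 / 16 := by
    refine hxcn.trans ?_
    linarith
  -- the good part
  have hgood : ∀ g, ∃ m : X g, x g ≠ 0 → good g → m ∈ M g (κ g) ∧ ‖m‖ ≤ 2 ∧
      ‖(2 : ℝ) ^ κ g • x g - m‖ ≤ ε₁ := by
    intro g
    by_cases h : x g ≠ 0 ∧ good g
    · obtain ⟨h0, hg⟩ := h
      have hD : (2 : ℝ) ^ κ g • x g ∈ D K g (κ g) := by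
        refine ⟨⟨x g, ⟨x, hx, rfl⟩, rfl⟩, ?_⟩
        rw [norm_smul, Real.norm_of_nonneg (by positivity)]
        have h2 := (hκ g h0).2
        calc (2 : ℝ) ^ κ g * ‖x g‖ ≤ (2 : ℝ) ^ κ g * (1 / 2 : ℝ) ^ κ g :=
              mul_le_mul_of_nonneg_left h2 (by positivity)
          _ = 1 := by rw [← mul_pow]; norm_num
      have hNear : Near δ (F g (D K g (κ g))) (L' g (κ g)) := by
        intro w hw
        obtain ⟨l', hl', hw'⟩ := hg w hw
        have hw1 : ‖w‖ ≤ 1 := (hF g _ (D_wc hK g (κ g)) (D_bl K g (κ g))).2 hw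
        set q : X g := (2 : ℝ) ^ (κ g + 1) • l' g with hq
        have e1 : ‖w - q‖ ≤ δ / 2 := by
          have e2 : w - q = (2 : ℝ) ^ (κ g + 1) • ((1 / 2 : ℝ) ^ (κ g + 1) • w - l' g) := by
            rw [smul_sub, smul_smul, ← mul_pow]
            norm_num
            exact hq
          rw [e2, norm_smul, Real.norm_of_nonneg (by positivity)]
          calc (2 : ℝ) ^ (κ g + 1) * ‖(1 / 2 : ℝ) ^ (κ g + 1) • w - l' g‖
              ≤ (2 : ℝ) ^ (κ g + 1) * (δ / 2 * (1 / 2 : ℝ) ^ (κ g + 1)) :=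
                mul_le_mul_of_nonneg_left hw' (by positivity)
            _ = δ / 2 * ((2 : ℝ) ^ (κ g + 1) * (1 / 2 : ℝ) ^ (κ g + 1)) := by ring
            _ = δ / 2 := by rw [← mul_pow]; norm_num
        have e3 : ‖q‖ ≤ r := by
          have := norm_sub_norm_le q w
          rw [norm_sub_rev] at this
          rw [hr]
          linarith
        refine ⟨r⁻¹ • q, ⟨q, ⟨⟨l' g, ⟨l', hl', rfl⟩, rfl⟩, e3⟩, rfl⟩, ?_⟩
        have e7 : ‖q - r⁻¹ • q‖ ≤ δ / 2 := by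
          have e8 : q - r⁻¹ • q = (1 - r⁻¹) • q := by
            rw [sub_smul, one_smul]
          have e9 : 0 ≤ 1 - r⁻¹ := by
            rw [sub_nonneg]
            exact inv_le_one_of_one_le₀ (by rw [hr]; linarith)
          rw [e8, norm_smul, Real.norm_of_nonneg e9]
          calc (1 - r⁻¹) * ‖q‖ ≤ (1 - r⁻¹) * r := mul_le_mul_of_nonneg_left e3 e9
            _ = r - 1 := by field_simp
            _ = δ / 2 := by rw [hr]; ring
        calc ‖w - r⁻¹ • q‖ = ‖(w - q) + (q - r⁻¹ • q)‖ := by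
              congr 1; abel
          _ ≤ δ / 2 + δ / 2 := (norm_add_le _ _).trans (add_le_add e1 e7)
          _ = δ := by ring
      obtain ⟨m, hm, hm2⟩ := hM2 g (κ g) _ (D_wc hK g (κ g)) (D_bl K g (κ g)) hNear _ hD
      refine ⟨m, fun _ _ => ⟨hm, ?_, hm2⟩⟩
      have h5 : ‖(2 : ℝ) ^ κ g • x g‖ ≤ 1 := hD.2
      have h6 := norm_sub_norm_le m ((2 : ℝ) ^ κ g • x g)
      rw [norm_sub_rev] at h6
      linarith
    · exact ⟨0, fun h0 hg => (h ⟨h0, hg⟩).elim⟩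
  choose m hm using hgood
  have hzx : ∀ g, x g ≠ 0 → good g →
      ‖x g - (1 / 2 : ℝ) ^ κ g • m g‖ ≤ 2 * ε₁ * ‖x g‖ := by
    intro g h0 hg
    obtain ⟨_, _, h3⟩ := hm g h0 hg
    have e2 : x g - (1 / 2 : ℝ) ^ κ g • m g = (1 / 2 : ℝ) ^ κ g • ((2 : ℝ) ^ κ g • x g - m g) := by
      rw [smul_sub, smul_smul, ← mul_pow]
      norm_num
    have h1 := (hκ g h0).1
    rw [e2, norm_smul, Real.norm_of_nonneg (by positivity)]
    have h4 : (1 / 2 : ℝ) ^ κ g = 2 * (1 / 2 : ℝ) ^ (κ g + 1) := by rw [pow_succ]; ring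
    have h5 : (1 / 2 : ℝ) ^ κ g ≤ 2 * ‖x g‖ := by rw [h4]; linarith
    calc (1 / 2 : ℝ) ^ κ g * ‖(2 : ℝ) ^ κ g • x g - m g‖ ≤ (2 * ‖x g‖) * ε₁ :=
          mul_le_mul h5 h3 (norm_nonneg _) (by positivity)
      _ = 2 * ε₁ * ‖x g‖ := by ring
  have hzn0 : ∀ g, x g ≠ 0 → good g →
      ‖(1 / 3 * (1 / 2 : ℝ) ^ κ g) • m g‖ ≤ 1 * ‖x g‖ := by
    intro g h0 hg
    have h1 := hzx g h0 hg
    have h2 : ‖(1 / 2 : ℝ) ^ κ g • m g‖ ≤ 3 * ‖x g‖ := by
      have := norm_sub_norm_le ((1 / 2 : ℝ) ^ κ g • m g) (x g)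
      rw [norm_sub_rev] at this
      nlinarith [norm_nonneg (x g)]
    rw [mul_smul, norm_smul, Real.norm_of_nonneg (by positivity)]
    linarith
  obtain ⟨z, hz, hzn⟩ := dom x
    (fun g => if (x g ≠ 0 ∧ good g) ∧ ¬ B0 g then (1 / 3 * (1 / 2 : ℝ) ^ κ g) • m g else 0) 1
    zero_le_one (by
      intro g
      split_ifs with hB
      · exact hzn0 g hB.1.1 hB.1.2
      · simp)
  have hzx2 : ∀ g, ‖z g‖ ≤ 2 * ‖l0 g‖ := by
    intro g
    rw [hz g]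
    split_ifs with hB
    · have h1 := hzn0 g hB.1.1 hB.1.2
      have h2 : ¬ (‖l0 g‖ < ‖x g‖ / 2) := hB.2
      push Not at h2
      linarith
    · simp only [norm_zero]
      positivity
  have hxbc : ∀ g, (xb + xc : lp X 1) g = if B g ∨ B0 g then x g else 0 := by
    intro g
    have h3 : (xb + xc : lp X 1) g = xb g + xc g := rfl
    rw [h3, hxb g, hxc g]
    by_cases h1 : B g
    · rw [if_pos h1, if_neg (fun h => h.1 h1), if_pos (Or.inl h1), add_zero]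
    · by_cases h2 : B0 g
      · rw [if_neg h1, if_pos ⟨h1, h2⟩, if_pos (Or.inr h2), zero_add]
      · rw [if_neg h1, if_neg (fun h => h2 h.2), if_neg (not_or.2 ⟨h1, h2⟩), add_zero]
  refine ⟨(3 : ℝ) • z, ⟨z, hH2 z (fun g => ?_) ⟨l0, hl0, hzx2⟩, rfl⟩, (4 : ℝ) • (xb + xc),
    hT K hK _ ?_ (fun g => ?_) ⟨x, hx, fun g => ?_⟩, ?_⟩
  · rw [hz g]
    split_ifs with hB
    · exact Or.inr (mem_iUnion.2 ⟨κ g, m g, ⟨(hm g hB.1.1 hB.1.2).1, (hm g hB.1.1 hB.1.2).2.1⟩, rfl⟩)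
    · exact Or.inl rfl
  · rw [norm_smul, Real.norm_of_nonneg (by norm_num)]
    have := norm_add_le xb xc
    linarith
  · rw [lp.coeFn_smul, Pi.smul_apply, hxbc g]
    split_ifs with hB
    · exact Or.inr ⟨x g, ⟨x, hx, rfl⟩, rfl⟩
    · exact Or.inl (by simp)
  · rw [lp.coeFn_smul, Pi.smul_apply, hxbc g, norm_smul, Real.norm_of_nonneg (by norm_num)]
    split_ifs with hB
    · exact le_rfl
    · simp only [norm_zero, mul_zero]
      positivity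
  · have e1 : x - ((3 : ℝ) • z + (1 / 4 : ℝ) • (4 : ℝ) • (xb + xc)) =
        x - ((3 : ℝ) • z + (xb + xc)) := by
      rw [smul_smul]
      norm_num
    rw [e1]
    obtain ⟨w, hw, hwn⟩ := dom x (fun g => (x - ((3 : ℝ) • z + (xb + xc)) : lp X 1) g) (2 * ε₁)
      (by positivity) (by
        intro g
        have e2 : (x - ((3 : ℝ) • z + (xb + xc)) : lp X 1) g =
          x g - ((3 : ℝ) • z g + (xb + xc : lp X 1) g) := rfl
        rw [e2, hz g, hxbc g]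
        by_cases h0 : x g = 0
        · have h1 : ¬ ((x g ≠ 0 ∧ good g) ∧ ¬ B0 g) := fun h => h.1.1 h0
          have h2 : ¬ (B g ∨ B0 g) := by
            rintro (h | h)
            · exact h.1 h0
            · have h' : ‖l0 g‖ < ‖x g‖ / 2 := h
              rw [h0, norm_zero] at h'
              linarith [norm_nonneg (l0 g)]
          rw [if_neg h1, if_neg h2, h0]
          simp
        · by_cases hg : good g ∧ ¬ B0 g
          · have h2 : ¬ (B g ∨ B0 g) := by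
              rintro (h | h)
              · exact h.2 hg.1
              · exact hg.2 h
            rw [if_pos ⟨⟨h0, hg.1⟩, hg.2⟩, if_neg h2, add_zero, smul_smul]
            have h3 : (3 : ℝ) * (1 / 3 * (1 / 2) ^ κ g) = (1 / 2) ^ κ g := by ring
            rw [h3]
            exact hzx g h0 hg.1
          · have h1 : ¬ ((x g ≠ 0 ∧ good g) ∧ ¬ B0 g) := fun h => hg ⟨h.1.2, h.2⟩
            have h2 : B g ∨ B0 g := by
              by_cases h : good g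
              · right
                by_contra h'
                exact hg ⟨h, h'⟩
              · left
                exact ⟨h0, h⟩
            rw [if_neg h1, if_pos h2]
            simp only [smul_zero, zero_add, sub_self, norm_zero]
            positivity)
    have e3 : w = x - ((3 : ℝ) • z + (xb + xc)) := by
      ext g
      exact hw g
    rw [← e3]
    refine hwn.trans ?_
    exact mul_le_of_le_one_right (by positivity) hx1

end

end LPA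

theorem st_LPA1 (hH1 : ST_H1.{u, v}) (hS : ST_SHK.{u}) : ST_LPA1.{u, v} := by
  classical
  intro Γ X _ _ δ hδ hδ1 H ε hε
  have hH := hH1 Γ X
  set ε₁ : ℝ := min (ε / 6) 1 with hε₁
  have he0 : 0 < ε₁ := lt_min (by positivity) one_pos
  have he1 : ε₁ ≤ 1 := min_le_right _ _
  have he6 : ε₁ ≤ ε / 6 := min_le_left _ _
  choose F hF hM using fun g => H g ε₁ he0
  obtain ⟨J, hJ⟩ := exists_pow_lt_of_lt_one (show (0 : ℝ) < ε / 2 by positivity)
    (show (1 / 4 : ℝ) < 1 by norm_num)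
  -- the hulls
  have hG0 : ∀ K : Set (lp X 1), ∃ G : Set (lp X 1), WCpt K → K ⊆ Bl (lp X 1) →
      (WCpt G ∧ G ⊆ Bl (lp X 1)) ∧ K ⊆ G ∧ ∀ y : lp X 1, ‖y‖ ≤ 1 → (∀ g, y g ∈ LPA.A F K g) →
      (∃ x ∈ K, ∀ g, ‖y g‖ ≤ ‖x g‖) → y ∈ G := by
    intro K
    by_cases hK : WCpt K
    · obtain ⟨Q, hQ1, hQ2⟩ := hH (LPA.A F K) (fun g => LPA.A_wc hS hF hK g) K hK 1 zero_le_one
      refine ⟨{y | y ∈ Q ∧ ‖y‖ ≤ 1} ∪ K, fun _ hKB => ⟨⟨(hQ1.inter_ball 1).union hK, ?_⟩,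
        subset_union_right, fun y hy1 hyA hyx => Or.inl ⟨hQ2 y hyA ?_, hy1⟩⟩⟩
      · rintro y (hy | hy)
        · exact hy.2
        · exact hKB hy
      · obtain ⟨x, hx, hxy⟩ := hyx
        exact ⟨x, hx, fun g => by rw [one_mul]; exact hxy g⟩
    · exact ⟨∅, fun h => absurd h hK⟩
  choose G hG using hG0
  have hT0 : ∀ K : Set (lp X 1), ∃ T : Set (lp X 1), WCpt K →
      (WCpt T ∧ T ⊆ Bl (lp X 1)) ∧ ∀ y : lp X 1, ‖y‖ ≤ 1 →
      (∀ g, y g ∈ ({0} ∪ (fun w => (4 : ℝ) • w) '' (LPA.ev g '' K) : Set (X g))) →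
      (∃ x ∈ K, ∀ g, ‖y g‖ ≤ 4 * ‖x g‖) → y ∈ T := by
    intro K
    by_cases hK : WCpt K
    · obtain ⟨Q, hQ1, hQ2⟩ := hH (fun g => ({0} ∪ (fun w => (4 : ℝ) • w) '' (LPA.ev g '' K) : Set (X g)))
        (fun g => (wcpt_singleton 0).union ((hK.image (LPA.ev g)).smul 4)) K hK 4 (by norm_num)
      exact ⟨{y | y ∈ Q ∧ ‖y‖ ≤ 1}, fun _ => ⟨⟨hQ1.inter_ball 1, fun y hy => hy.2⟩,
        fun y hy1 hyA hyx => ⟨hQ2 y hyA hyx, hy1⟩⟩⟩
    · exact ⟨∅, fun h => absurd h hK⟩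
  choose T hT using hT0
  have hTj : ∀ (j : ℕ) (K : Set (lp X 1)), WCpt K → K ⊆ Bl (lp X 1) →
      WCpt (T^[j] K) ∧ T^[j] K ⊆ Bl (lp X 1) := by
    intro j
    induction j with
    | zero => intro K h1 h2; exact ⟨h1, h2⟩
    | succ j ih =>
      intro K h1 h2
      rw [Function.iterate_succ_apply]
      exact ih _ (hT K h1).1.1 (hT K h1).1.2
  refine ⟨fun K => ⋃ j ∈ Finset.range J, G (T^[j] K), fun K hK hKB => ⟨?_, ?_⟩,
    fun L hL hLB => ?_⟩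
  · exact wcpt_biUnion _ fun j _ => (hG _ (hTj j K hK hKB).1 (hTj j K hK hKB).2).1.1
  · intro y hy
    simp only [mem_iUnion] at hy
    obtain ⟨j, _, hy⟩ := hy
    exact (hG _ (hTj j K hK hKB).1 (hTj j K hK hKB).2).1.2 hy
  · obtain ⟨M₁, hM₁, hstep⟩ := LPA.step1 (F := F) hS hH G T (fun K hK hKB => (hG K hK hKB).2)
      (fun K hK => (hT K hK).2) hδ hδ1 he0 he1 hF hM L hL
    have key : ∀ n : ℕ, ∃ M : Set (lp X 1), WCpt M ∧ ∀ K, WCpt K → K ⊆ Bl (lp X 1) →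
        (∀ j < n, Near (δ / 32) (G (T^[j] K)) L) →
        Near ((1 / 4 : ℝ) ^ n + 3 * ε₁) K M := by
      intro n
      induction n with
      | zero =>
        refine ⟨{0}, wcpt_singleton 0, fun K _ hKB _ x hx => ⟨0, rfl, ?_⟩⟩
        have : ‖x‖ ≤ 1 := hKB hx
        simp only [sub_zero, pow_zero]
        linarith
      | succ n ih =>
        obtain ⟨M, hM', hMn⟩ := ih
        refine ⟨_, hM₁.add (hM'.smul (1 / 4)), fun K hK hKB hN x hx => ?_⟩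
        obtain ⟨z, hz, x', hx', hzx⟩ := hstep K hK hKB (hN 0 (by omega)) x hx
        obtain ⟨w, hw, hxw⟩ := hMn (T K) (hT K hK).1.1 (hT K hK).1.2
          (fun j hj => by
            have := hN (j + 1) (by omega)
            rwa [Function.iterate_succ_apply] at this) x' hx'
        refine ⟨z + (1 / 4 : ℝ) • w, ⟨z, hz, (1 / 4 : ℝ) • w, ⟨w, hw, rfl⟩, rfl⟩, ?_⟩
        have e1 : x - (z + (1 / 4 : ℝ) • w) =
            (x - (z + (1 / 4 : ℝ) • x')) + (1 / 4 : ℝ) • (x' - w) := by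
          rw [smul_sub]; abel
        rw [e1]
        refine (norm_add_le _ _).trans ?_
        rw [norm_smul, Real.norm_of_nonneg (by norm_num), pow_succ]
        linarith
    obtain ⟨M, hM', hMn⟩ := key J
    refine ⟨M, hM', fun K hK hKB hN x hx => ?_⟩
    obtain ⟨w, hw, hxw⟩ := hMn K hK hKB (fun j hj y hy => hN y (by
      simp only [mem_iUnion]
      exact ⟨j, Finset.mem_range.2 hj, hy⟩)) x hx
    exact ⟨w, hw, by linarith⟩

end Pool.Agent.Helper65.TU
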