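import Pool.Agent.Helper65.TU.Stmts4

/-! MP_5c2ead_an, project TU: spaces with the Schur property have AMPd (1/8). -/

open Set Filter Topology

namespace Pool.Agent.Helper65.TU

universe u

/-- a maximal 1/2-separated subset of the ball. -/
theorem exists_max_sep (X : Type u) [NormedAddCommGroup X] [NormedSpace ℝ X] :
    ∃ E : Set X, E ⊆ Bl X ∧ E.Pairwise (fun x y => (1 / 2 : ℝ) ≤ ‖x - y‖) ∧
      ∀ u ∈ Bl X, (∀ e ∈ E, (1 / 2 : ℝ) ≤ ‖u - e‖) → u ∈ E := by
  obtain ⟨E, hE⟩ := zorn_subset {E : Set X | E ⊆ Bl X ∧ E.Pairwise (fun x y => (1 / 2 : ℝ) ≤ ‖x - y‖)}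
    (by
      intro c hc hch
      refine ⟨⋃₀ c, ⟨sUnion_subset fun s hs => (hc hs).1, ?_⟩, fun s hs => subset_sUnion_of_mem hs⟩
      rw [Set.pairwise_sUnion hch.directedOn]
      exact fun s hs => (hc hs).2)
  refine ⟨E, hE.prop.1, hE.prop.2, fun u hu h => ?_⟩
  have h1 : insert u E ∈ {E : Set X | E ⊆ Bl X ∧ E.Pairwise (fun x y => (1 / 2 : ℝ) ≤ ‖x - y‖)} := by
    refine ⟨insert_subset hu hE.prop.1, ?_⟩
    rw [Set.pairwise_insert]
    refine ⟨hE.prop.2, fun b hb _ => ⟨h b hb, ?_⟩⟩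
    rw [norm_sub_rev]
    exact h b hb
  exact hE.le_of_ge h1 (subset_insert u E) (mem_insert u E)

theorem dense_of_max (X : Type u) [NormedAddCommGroup X] [NormedSpace ℝ X] (E : Set X)
    (hmax : ∀ u ∈ Bl X, (∀ e ∈ E, (1 / 2 : ℝ) ≤ ‖u - e‖) → u ∈ E) (x : X) (ε : ℝ) (hε : 0 < ε) :
    ∃ d ∈ Submodule.span ℝ E, ‖x - d‖ < ε := by
  have h1 : x ∈ (Submodule.span ℝ E).topologicalClosure := by
    by_contra hx
    obtain ⟨x₀, hx₀, hr⟩ := riesz_lemma (r := 1 / 2)
      (Submodule.isClosed_topologicalClosure (Submodule.span ℝ E)) ⟨x, hx⟩ (by norm_num)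
    have hc : 0 < ‖x₀‖ := by
      refine norm_pos_iff.2 fun h => hx₀ ?_
      rw [h]
      exact Submodule.zero_mem _
    have h2 : ∀ y ∈ (Submodule.span ℝ E).topologicalClosure, 1 / 2 ≤ ‖‖x₀‖⁻¹ • x₀ - y‖ := by
      intro y hy
      have h3 := hr (‖x₀‖ • y) (Submodule.smul_mem _ _ hy)
      have h4 : ‖x₀‖⁻¹ • x₀ - y = ‖x₀‖⁻¹ • (x₀ - ‖x₀‖ • y) := by
        rw [smul_sub, smul_smul, inv_mul_cancel₀ hc.ne', one_smul]
      rw [h4, norm_smul, norm_inv, norm_norm]
      have h5 := mul_le_mul_of_nonneg_left h3 (inv_nonneg.2 hc.le)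
      have h6 : ‖x₀‖⁻¹ * (1 / 2 * ‖x₀‖) = 1 / 2 := by field_simp
      rw [h6] at h5
      exact h5
    have h7 : ‖x₀‖⁻¹ • x₀ ∈ E := by
      refine hmax _ ?_ fun e he => h2 e ?_
      · change ‖‖x₀‖⁻¹ • x₀‖ ≤ 1
        rw [norm_smul, norm_inv, norm_norm, inv_mul_cancel₀ hc.ne']
      · exact Submodule.le_topologicalClosure _ (Submodule.subset_span he)
    have h8 := h2 _ (Submodule.le_topologicalClosure _ (Submodule.subset_span h7))
    rw [sub_self, norm_zero] at h8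
    norm_num at h8
  have h2 : x ∈ closure (Submodule.span ℝ E : Set X) := h1
  obtain ⟨d, hd, hxd⟩ := Metric.mem_closure_iff.1 h2 ε hε
  exact ⟨d, hd, by rwa [dist_eq_norm] at hxd⟩

theorem wcpt_of_compact {X : Type u} [NormedAddCommGroup X] [NormedSpace ℝ X] {K : Set X}
    (hK : IsCompact K) : WCpt K := by
  have h := wcpt_image (X := X) (A := X) (s := K) hK (h := fun x => x)
    (fun f => f.continuous.continuousOn)
  simpa using h

theorem schd (X : Type u) [NormedAddCommGroup X] [NormedSpace ℝ X]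
    (hX : ∀ K : Set X, WCpt K → IsCompact K) : AMPd (1 / 8) X := by
  classical
  obtain ⟨E, hE1, hE2, hE3⟩ := exists_max_sep X
  intro ε hε
  have hmin : 0 < min ε 1 := lt_min hε one_pos
  have key : ∀ K : Set X, ∃ S : Finset X, WCpt K → (S : Set X) ⊆ E ∧
      ∀ x ∈ K, ∃ d ∈ Submodule.span ℝ (S : Set X), ‖x - d‖ ≤ min ε 1 := by
    intro K
    by_cases hK : WCpt K
    · obtain ⟨t, htK, htf, ht⟩ := (Metric.totallyBounded_iff.1 (hX K hK).totallyBounded
        (min ε 1 / 2) (by positivity)) |> fun ⟨t, h1, h2⟩ =>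
          (⟨t, trivial, h1, h2⟩ : ∃ t : Set X, True ∧ t.Finite ∧ K ⊆ ⋃ y ∈ t, Metric.ball y (min ε 1 / 2))
      choose d hd1 hd2 using fun c : X => dense_of_max X E hE3 c (min ε 1 / 2) (by positivity)
      choose T hT1 hT2 using fun c : X => Submodule.mem_span_finite_of_mem_span (hd1 c)
      refine ⟨htf.toFinset.biUnion T, fun _ => ⟨?_, fun x hx => ?_⟩⟩
      · intro y hy
        simp only [Finset.coe_biUnion, mem_iUnion] at hy
        obtain ⟨c, _, hy⟩ := hy
        exact hT1 c hy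
      · have h1 := ht hx
        simp only [mem_iUnion, Metric.mem_ball, dist_eq_norm, exists_prop] at h1
        obtain ⟨c, hc, hxc⟩ := h1
        refine ⟨d c, Submodule.span_mono ?_ (hT2 c), ?_⟩
        · intro y hy
          simp only [Finset.coe_biUnion, mem_iUnion]
          exact ⟨c, by simpa using hc, hy⟩
        · have h3 := hd2 c
          have h4 : x - d c = (x - c) + (c - d c) := by abel
          rw [h4]
          linarith [norm_add_le (x - c) (c - d c)]
    · exact ⟨∅, fun h => absurd h hK⟩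
  choose S hS using key
  refine ⟨fun K => (S K : Set X), fun K hK _ => ⟨wcpt_finite (S K).finite_toSet,
    (hS K hK).1.trans hE1⟩, ?_⟩
  intro L hL _
  have hfin : {e | e ∈ E ∧ ∃ l ∈ L, ‖e - l‖ ≤ 1 / 8}.Finite := by
    obtain ⟨t, htf, ht⟩ := Metric.totallyBounded_iff.1 (hX L hL).totallyBounded (1 / 9) (by norm_num)
    have h1 : ∀ e : X, ∃ c : X, (e ∈ E ∧ ∃ l ∈ L, ‖e - l‖ ≤ 1 / 8) → c ∈ t ∧ ‖e - c‖ < 1 / 4 := by
      intro e
      by_cases he : e ∈ E ∧ ∃ l ∈ L, ‖e - l‖ ≤ 1 / 8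
      · obtain ⟨_, l, hl, hel⟩ := he
        have h1 := ht hl
        simp only [mem_iUnion, Metric.mem_ball, dist_eq_norm, exists_prop] at h1
        obtain ⟨c, hc, hlc⟩ := h1
        refine ⟨c, fun _ => ⟨hc, ?_⟩⟩
        have h4 : e - c = (e - l) + (l - c) := by abel
        rw [h4]
        linarith [norm_add_le (e - l) (l - c)]
      · exact ⟨0, fun h => absurd h he⟩
    choose c hc using h1
    refine Set.Finite.of_finite_image (f := c) (htf.subset ?_) ?_
    · rintro _ ⟨e, he, rfl⟩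
      exact (hc e he).1
    · intro e he e' he' h
      by_contra hne
      have h1 := hE2 he.1 he'.1 hne
      have h2 := (hc e he).2
      have h3 := (hc e' he').2
      have h : c e = c e' := h
      rw [← h] at h3
      have h4 : e - e' = (e - c e) - (e' - c e) := by abel
      have h5 := norm_sub_le (e - c e) (e' - c e)
      rw [← h4] at h5
      change (1 / 2 : ℝ) ≤ ‖e - e'‖ at h1
      linarith
  set S₀ := {e | e ∈ E ∧ ∃ l ∈ L, ‖e - l‖ ≤ 1 / 8} with hS₀
  have : FiniteDimensional ℝ (Submodule.span ℝ S₀) := FiniteDimensional.span_of_finite ℝ hfin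
  have : ProperSpace (Submodule.span ℝ S₀) := FiniteDimensional.proper ℝ _
  have hM : IsCompact ((fun z : Submodule.span ℝ S₀ => (z : X)) ''
      (Metric.closedBall (0 : Submodule.span ℝ S₀) 2)) :=
    (isCompact_closedBall _ _).image continuous_subtype_val
  refine ⟨_, wcpt_of_compact hM, fun K hK hKB hN => fun x hx => ?_⟩
  obtain ⟨d, hd, hxd⟩ := (hS K hK).2 x hx
  have hsub : (S K : Set X) ⊆ S₀ := fun e he => by
    obtain ⟨l, hl, hel⟩ := hN e he
    exact ⟨(hS K hK).1 he, l, hl, hel⟩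
  have hd' : d ∈ Submodule.span ℝ S₀ := Submodule.span_mono hsub hd
  refine ⟨d, ⟨⟨d, hd'⟩, ?_, rfl⟩, hxd.trans (min_le_left _ _)⟩
  rw [mem_closedBall_zero_iff]
  change ‖d‖ ≤ 2
  have h1 : ‖x‖ ≤ 1 := hKB hx
  have h2 : ‖x - d‖ ≤ 1 := hxd.trans (min_le_right _ _)
  have h3 : d = x - (x - d) := by abel
  rw [h3]
  linarith [norm_sub_le x (x - d)]

end Pool.Agent.Helper65.TU
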