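import Pool.Agent.Helper65.TU.FinalD
import Pool.Agent.Helper65.TU.LPA1
import Pool.Agent.Helper65.TU.Schur
import Pool.Agent.Helper13.TU.T1
import Pool.Agent.Helper40.TU.H1
import Pool.Agent.Helper74.TU.SWC
import Pool.Agent.Helper27.TU.JAMU
import Pool.Agent.Helper2.TU.MAZ
import Pool.Agent.Helper63.TU.ES

open Set Filter Topology

namespace Pool.Agent.Helper65.TU

universe u v

theorem fin_LPA1 : ST_LPA1.{u, v} := st_LPA1 (st_H1 (st_T1 st_ES)) st_SHK

theorem fin_SWC : ST_SWC.{u} := st_SWC st_JAMU st_MAZ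

end Pool.Agent.Helper65.TU
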