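import Pool.Agent.Helper65.TU.FinalE
import Pool.Agent.Helper65.TU.Compl
import Pool.Agent.Helper40.TU.RQ1
import Pool.Agent.Helper77.TU.RQ2
import Pool.Agent.Helper13.TU.RQ3

open Set Filter Topology

namespace Pool.Agent.Helper65.TU

universe u v

theorem fin_RQ2 : ST_RQ2.{u} := st_RQ2 st_RQ1

theorem fin_RQ3 : ST_RQ3.{u} := st_RQ3 st_RQ1

end Pool.Agent.Helper65.TU
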