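import Pool.Agent.Helper65.TU.Stmts3

open Set Filter Topology
open scoped ENNReal

namespace Pool.Agent.Helper65.TU

universe u v

namespace LPA

section
variable {Γ : Type v} {X : Γ → Type u} [∀ g, NormedAddCommGroup (X g)] [∀ g, NormedSpace ℝ (X g)]
  {p : ℝ≥0∞} [hp1 : Fact (1 ≤ p)]

theorem p_ne : p ≠ 0 := (zero_lt_one.trans_le hp1.out).ne'

theorem dom (x : lp X p) (y : ∀ g, X g) (c : ℝ) (hc : 0 ≤ c) (h : ∀ g, ‖y g‖ ≤ c * ‖x g‖) :
    ∃ y' : lp X p, (∀ g, y' g = y g) ∧ ‖y'‖ ≤ c * ‖x‖ := by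
  have h1 : ∀ g, ‖y g‖ ≤ ‖(c • x : lp X p) g‖ := by
    intro g
    rw [lp.coeFn_smul, Pi.smul_apply, norm_smul, Real.norm_of_nonneg hc]
    exact h g
  have hm : Memℓp y p := (lp.memℓp (c • x)).mono' h1
  refine ⟨⟨y, hm⟩, fun g => rfl, ?_⟩
  have h2 := lp.norm_mono (p_ne (p := p)) (x := (⟨y, hm⟩ : lp X p)) (y := c • x) h1
  rwa [norm_smul, Real.norm_of_nonneg hc] at h2

noncomputable def ev (g : Γ) : lp X p →L[ℝ] X g := lp.evalCLM ℝ X p g

theorem ev_apply (g : Γ) (x : lp X p) : ev g x = x g := rfl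

def D (K : Set (lp X p)) (g : Γ) (k : ℕ) : Set (X g) :=
  {u | u ∈ (fun w => (2 : ℝ) ^ k • w) '' (ev g '' K) ∧ ‖u‖ ≤ 1}

theorem D_wc {K : Set (lp X p)} (hK : WCpt K) (g : Γ) (k : ℕ) : WCpt (D K g k) :=
  ((hK.image (ev g)).smul _).inter_ball 1

theorem D_bl (K : Set (lp X p)) (g : Γ) (k : ℕ) : D K g k ⊆ Bl (X g) := fun _ h => h.2

variable (F : ∀ g, Set (X g) → Set (X g))

def A (K : Set (lp X p)) (g : Γ) : Set (X g) :=
  {0} ∪ ⋃ k : ℕ, (fun u => ((1 / 2 : ℝ) ^ (k + 1)) • u) '' F g (D K g k)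

def G (K : Set (lp X p)) : Set (lp X p) := {y | ‖y‖ ≤ 1 ∧ ∀ g, y g ∈ A F K g}

def T (K : Set (lp X p)) : Set (lp X p) :=
  {y | ‖y‖ ≤ 1 ∧ ∀ g, y g ∈ ({0} ∪ (fun w => (4 : ℝ) • w) '' (ev g '' K) : Set (X g))}

variable {F}

theorem pow_half_tendsto : Tendsto (fun k : ℕ => (1 / 2 : ℝ) ^ (k + 1)) atTop (𝓝 0) :=
  (tendsto_pow_atTop_nhds_zero_of_lt_one (by norm_num) (by norm_num)).comp (tendsto_add_atTop_nat 1)

theorem A_wc (hS : ST_SHK.{u}) (hF : ∀ g, ∀ K, WCpt K → K ⊆ Bl (X g) → WCpt (F g K) ∧ F g K ⊆ Bl (X g))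
    {K : Set (lp X p)} (hK : WCpt K) (g : Γ) : WCpt (A F K g) := by
  refine hS (X g) _ (fun k => (1 / 2 : ℝ) ^ (k + 1)) (fun k => ?_) (fun k x hx => ?_) pow_half_tendsto
  · exact ((hF g _ (D_wc hK g k) (D_bl K g k)).1).smul _
  · obtain ⟨u, hu, rfl⟩ := hx
    have h1 : ‖u‖ ≤ 1 := (hF g _ (D_wc hK g k) (D_bl K g k)).2 hu
    beta_reduce
    rw [norm_smul, Real.norm_of_nonneg (by positivity)]
    exact mul_le_of_le_one_right (by positivity) h1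

theorem G_wc (hS : ST_SHK.{u}) (hW : ∀ A : (g : Γ) → Set (X g), (∀ g, WCpt (A g)) →
    WCpt {y : lp X p | ‖y‖ ≤ 1 ∧ ∀ g, y g ∈ A g})
    (hF : ∀ g, ∀ K, WCpt K → K ⊆ Bl (X g) → WCpt (F g K) ∧ F g K ⊆ Bl (X g))
    {K : Set (lp X p)} (hK : WCpt K) : WCpt (G F K) :=
  hW _ fun g => A_wc hS hF hK g

theorem T_wc (hW : ∀ A : (g : Γ) → Set (X g), (∀ g, WCpt (A g)) →
    WCpt {y : lp X p | ‖y‖ ≤ 1 ∧ ∀ g, y g ∈ A g})
    {K : Set (lp X p)} (hK : WCpt K) : WCpt (T K) :=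
  hW _ fun g => (wcpt_singleton 0).union ((hK.image (ev g)).smul 4)

theorem T_bl (K : Set (lp X p)) : T K ⊆ Bl (lp X p) := fun _ h => h.1

theorem step (hS : ST_SHK.{u}) (hW : ∀ A : (g : Γ) → Set (X g), (∀ g, WCpt (A g)) →
    WCpt {y : lp X p | ‖y‖ ≤ 1 ∧ ∀ g, y g ∈ A g}) {δ ε₁ : ℝ} (hδ : 0 < δ)
    (hε : 0 < ε₁) (hε1 : ε₁ ≤ 1)
    (hF : ∀ g, ∀ K, WCpt K → K ⊆ Bl (X g) → WCpt (F g K) ∧ F g K ⊆ Bl (X g))
    (hM : ∀ g, ∀ L, WCpt L → L ⊆ Bl (X g) → ∃ M, WCpt M ∧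
      ∀ K, WCpt K → K ⊆ Bl (X g) → Near δ (F g K) L → Near ε₁ K M)
    (L : Set (lp X p)) (hL : WCpt L) : ∃ M₁ : Set (lp X p), WCpt M₁ ∧
      ∀ K, WCpt K → K ⊆ Bl (lp X p) → Near (δ / 16) (G F K) L → ∀ x ∈ K, ∃ z ∈ M₁, ∃ x' ∈ T K,
        ‖x - (z + (1 / 4 : ℝ) • x')‖ ≤ 2 * ε₁ := by
  classical
  set r : ℝ := 1 + δ / 2 with hr
  have hr0 : 0 < r := by positivity
  let L' : ∀ g : Γ, ℕ → Set (X g) := fun g k =>
    (fun w => r⁻¹ • w) '' {w | w ∈ (fun w => (2 : ℝ) ^ (k + 1) • w) '' (ev g '' L) ∧ ‖w‖ ≤ r}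
  have hL'1 : ∀ g k, WCpt (L' g k) := fun g k =>
    (((hL.image (ev g)).smul _).inter_ball r).smul _
  have hL'2 : ∀ g k, L' g k ⊆ Bl (X g) := by
    rintro g k _ ⟨w, hw, rfl⟩
    show ‖r⁻¹ • w‖ ≤ 1
    rw [norm_smul, Real.norm_of_nonneg (inv_nonneg.2 hr0.le), inv_mul_le_iff₀ hr0, mul_one]
    exact hw.2
  choose M hM1 hM2 using fun g k => hM g (L' g k) (hL'1 g k) (hL'2 g k)
  let Sg : ∀ g : Γ, Set (X g) := fun g =>
    {0} ∪ ⋃ k : ℕ, (fun m => (1 / 3 * (1 / 2 : ℝ) ^ k) • m) '' {m | m ∈ M g k ∧ ‖m‖ ≤ 2}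
  have hSg : ∀ g, WCpt (Sg g) := by
    intro g
    refine hS (X g) _ (fun k => 2 * (1 / 2 : ℝ) ^ k) (fun k => ((hM1 g k).inter_ball 2).smul _)
      (fun k x hx => ?_) ?_
    · obtain ⟨m, hm, rfl⟩ := hx
      beta_reduce
      rw [norm_smul, Real.norm_of_nonneg (by positivity)]
      have h2 : ‖m‖ ≤ 2 := hm.2
      have h3 : (0 : ℝ) < (1 / 2 : ℝ) ^ k := by positivity
      nlinarith [norm_nonneg m]
    · have := (tendsto_pow_atTop_nhds_zero_of_lt_one (r := (1 / 2 : ℝ)) (by norm_num)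
        (by norm_num)).const_mul 2
      simpa using this
  refine ⟨(fun y => (3 : ℝ) • y) '' {y : lp X p | ‖y‖ ≤ 1 ∧ ∀ g, y g ∈ Sg g}, (hW _ hSg).smul 3,
    fun K hK hKB hN x hx => ?_⟩
  have hx1 : ‖x‖ ≤ 1 := hKB hx
  have hxg : ∀ g, ‖x g‖ ≤ 1 := fun g => (lp.norm_apply_le_norm (p_ne (p := p)) x g).trans hx1
  have hκ : ∀ g, ∃ k : ℕ, x g ≠ 0 → (1 / 2 : ℝ) ^ (k + 1) < ‖x g‖ ∧ ‖x g‖ ≤ (1 / 2 : ℝ) ^ k := by
    intro g
    by_cases h : x g = 0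
    · exact ⟨0, fun h' => (h' h).elim⟩
    · obtain ⟨k, hk⟩ := exists_nat_pow_near_of_lt_one (norm_pos_iff.2 h) (hxg g)
        (y := (1 / 2 : ℝ)) (by norm_num) (by norm_num)
      exact ⟨k, fun _ => hk⟩
  choose κ hκ using hκ
  let good : Γ → Prop := fun g => ∀ u ∈ F g (D K g (κ g)), ∃ l ∈ L,
    ‖(1 / 2 : ℝ) ^ (κ g + 1) • u - l g‖ ≤ δ / 2 * (1 / 2 : ℝ) ^ (κ g + 1)
  have hbad : ∀ g, ∃ u : X g, ¬ good g → u ∈ F g (D K g (κ g)) ∧ ∀ l ∈ L,
      δ / 2 * (1 / 2 : ℝ) ^ (κ g + 1) < ‖(1 / 2 : ℝ) ^ (κ g + 1) • u - l g‖ := by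
    intro g
    by_cases h : good g
    · exact ⟨0, fun h' => (h' h).elim⟩
    · have h' := h
      simp only [good, not_forall, not_exists, not_and, not_le] at h'
      obtain ⟨u, hu, hu2⟩ := h'
      exact ⟨u, fun _ => ⟨hu, hu2⟩⟩
  choose u hu using hbad
  let B : Γ → Prop := fun g => x g ≠ 0 ∧ ¬ good g
  obtain ⟨y, hy, hyn⟩ := dom x (fun g => if B g then (1 / 2 : ℝ) ^ (κ g + 1) • u g else 0) 1
    zero_le_one (by
      intro g
      split_ifs with hB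
      · have h1 := (hu g hB.2).1
        have h2 : ‖u g‖ ≤ 1 := (hF g _ (D_wc hK g (κ g)) (D_bl K g (κ g))).2 h1
        rw [norm_smul, Real.norm_of_nonneg (by positivity), one_mul]
        exact (mul_le_of_le_one_right (by positivity) h2).trans (hκ g hB.1).1.le
      · simp)
  have hyG : y ∈ G F K := by
    refine ⟨by linarith, fun g => ?_⟩
    rw [hy g]
    split_ifs with hB
    · exact Or.inr (mem_iUnion.2 ⟨κ g, u g, (hu g hB.2).1, rfl⟩)
    · exact Or.inl rfl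
  obtain ⟨l, hl, hyl⟩ := hN y hyG
  obtain ⟨xb, hxb, hxbn⟩ := dom (y - l) (fun g => if B g then x g else 0) (4 / δ) (by positivity) (by
      intro g
      split_ifs with hB
      · have h1 := (hu g hB.2).2 l hl
        have h2 := (hκ g hB.1).2
        have h3 : (y - l : lp X p) g = (1 / 2 : ℝ) ^ (κ g + 1) • u g - l g := by
          rw [lp.coeFn_sub, Pi.sub_apply, hy g, if_pos hB]
        rw [h3]
        have h4 : (1 / 2 : ℝ) ^ κ g = 4 / δ * (δ / 2 * (1 / 2 : ℝ) ^ (κ g + 1)) := by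
          rw [pow_succ]
          field_simp
          ring
        calc ‖x g‖ ≤ (1 / 2 : ℝ) ^ κ g := h2
          _ = 4 / δ * (δ / 2 * (1 / 2 : ℝ) ^ (κ g + 1)) := h4
          _ ≤ _ := mul_le_mul_of_nonneg_left h1.le (by positivity)
      · simp only [norm_zero]
        positivity)
  have hxb4 : ‖xb‖ ≤ 1 / 4 := by
    refine hxbn.trans ?_
    calc 4 / δ * ‖y - l‖ ≤ 4 / δ * (δ / 16) := mul_le_mul_of_nonneg_left hyl (by positivity)
      _ = 1 / 4 := by field_simp; norm_num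
  -- the good part
  have hgood : ∀ g, ∃ m : X g, x g ≠ 0 → good g → m ∈ M g (κ g) ∧ ‖m‖ ≤ 2 ∧
      ‖(2 : ℝ) ^ κ g • x g - m‖ ≤ ε₁ := by
    intro g
    by_cases h : x g ≠ 0 ∧ good g
    · obtain ⟨h0, hg⟩ := h
      have hD : (2 : ℝ) ^ κ g • x g ∈ D K g (κ g) := by
        refine ⟨⟨x g, ⟨x, hx, rfl⟩, rfl⟩, ?_⟩
        rw [norm_smul, Real.norm_of_nonneg (by positivity)]
        have h2 := (hκ g h0).2
        calc (2 : ℝ) ^ κ g * ‖x g‖ ≤ (2 : ℝ) ^ κ g * (1 / 2 : ℝ) ^ κ g :=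
              mul_le_mul_of_nonneg_left h2 (by positivity)
          _ = 1 := by rw [← mul_pow]; norm_num
      have hNear : Near δ (F g (D K g (κ g))) (L' g (κ g)) := by
        intro w hw
        obtain ⟨l', hl', hw'⟩ := hg w hw
        have hw1 : ‖w‖ ≤ 1 := (hF g _ (D_wc hK g (κ g)) (D_bl K g (κ g))).2 hw
        set q : X g := (2 : ℝ) ^ (κ g + 1) • l' g with hq
        have e1 : ‖w - q‖ ≤ δ / 2 := by
          have e2 : w - q = (2 : ℝ) ^ (κ g + 1) • ((1 / 2 : ℝ) ^ (κ g + 1) • w - l' g) := by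
            rw [smul_sub, smul_smul, ← mul_pow]
            norm_num
            exact hq
          rw [e2, norm_smul, Real.norm_of_nonneg (by positivity)]
          calc (2 : ℝ) ^ (κ g + 1) * ‖(1 / 2 : ℝ) ^ (κ g + 1) • w - l' g‖
              ≤ (2 : ℝ) ^ (κ g + 1) * (δ / 2 * (1 / 2 : ℝ) ^ (κ g + 1)) :=
                mul_le_mul_of_nonneg_left hw' (by positivity)
            _ = δ / 2 * ((2 : ℝ) ^ (κ g + 1) * (1 / 2 : ℝ) ^ (κ g + 1)) := by ring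
            _ = δ / 2 := by rw [← mul_pow]; norm_num
        have e3 : ‖q‖ ≤ r := by
          have := norm_sub_norm_le q w
          rw [norm_sub_rev] at this
          rw [hr]
          linarith
        refine ⟨r⁻¹ • q, ⟨q, ⟨⟨l' g, ⟨l', hl', rfl⟩, rfl⟩, e3⟩, rfl⟩, ?_⟩
        have e7 : ‖q - r⁻¹ • q‖ ≤ δ / 2 := by
          have e8 : q - r⁻¹ • q = (1 - r⁻¹) • q := by
            rw [sub_smul, one_smul]
          have e9 : 0 ≤ 1 - r⁻¹ := by
            rw [sub_nonneg]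
            exact inv_le_one_of_one_le₀ (by rw [hr]; linarith)
          rw [e8, norm_smul, Real.norm_of_nonneg e9]
          calc (1 - r⁻¹) * ‖q‖ ≤ (1 - r⁻¹) * r := mul_le_mul_of_nonneg_left e3 e9
            _ = r - 1 := by field_simp
            _ = δ / 2 := by rw [hr]; ring
        calc ‖w - r⁻¹ • q‖ = ‖(w - q) + (q - r⁻¹ • q)‖ := by
              congr 1; abel
          _ ≤ δ / 2 + δ / 2 := (norm_add_le _ _).trans (add_le_add e1 e7)
          _ = δ := by ring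
      obtain ⟨m, hm, hm2⟩ := hM2 g (κ g) _ (D_wc hK g (κ g)) (D_bl K g (κ g)) hNear _ hD
      refine ⟨m, fun _ _ => ⟨hm, ?_, hm2⟩⟩
      have h5 : ‖(2 : ℝ) ^ κ g • x g‖ ≤ 1 := hD.2
      have h6 := norm_sub_norm_le m ((2 : ℝ) ^ κ g • x g)
      rw [norm_sub_rev] at h6
      linarith
    · exact ⟨0, fun h0 hg => (h ⟨h0, hg⟩).elim⟩
  choose m hm using hgood
  have hzx : ∀ g, x g ≠ 0 → good g →
      ‖x g - (1 / 2 : ℝ) ^ κ g • m g‖ ≤ 2 * ε₁ * ‖x g‖ := by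
    intro g h0 hg
    obtain ⟨_, _, h3⟩ := hm g h0 hg
    have e2 : x g - (1 / 2 : ℝ) ^ κ g • m g = (1 / 2 : ℝ) ^ κ g • ((2 : ℝ) ^ κ g • x g - m g) := by
      rw [smul_sub, smul_smul, ← mul_pow]
      norm_num
    have h1 := (hκ g h0).1
    rw [e2, norm_smul, Real.norm_of_nonneg (by positivity)]
    have h4 : (1 / 2 : ℝ) ^ κ g = 2 * (1 / 2 : ℝ) ^ (κ g + 1) := by rw [pow_succ]; ring
    have h5 : (1 / 2 : ℝ) ^ κ g ≤ 2 * ‖x g‖ := by rw [h4]; linarith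
    calc (1 / 2 : ℝ) ^ κ g * ‖(2 : ℝ) ^ κ g • x g - m g‖ ≤ (2 * ‖x g‖) * ε₁ :=
          mul_le_mul h5 h3 (norm_nonneg _) (by positivity)
      _ = 2 * ε₁ * ‖x g‖ := by ring
  obtain ⟨z, hz, hzn⟩ := dom x
    (fun g => if x g ≠ 0 ∧ good g then (1 / 3 * (1 / 2 : ℝ) ^ κ g) • m g else 0) 1
    zero_le_one (by
      intro g
      split_ifs with hB
      · have h1 := hzx g hB.1 hB.2
        have h2 : ‖(1 / 2 : ℝ) ^ κ g • m g‖ ≤ 3 * ‖x g‖ := by
          have := norm_sub_norm_le ((1 / 2 : ℝ) ^ κ g • m g) (x g)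
          rw [norm_sub_rev] at this
          nlinarith [norm_nonneg (x g)]
        rw [mul_smul, norm_smul, Real.norm_of_nonneg (by positivity)]
        linarith
      · simp)
  refine ⟨(3 : ℝ) • z, ⟨z, ⟨by linarith, fun g => ?_⟩, rfl⟩, (4 : ℝ) • xb, ⟨?_, fun g => ?_⟩, ?_⟩
  · rw [hz g]
    split_ifs with hB
    · exact Or.inr (mem_iUnion.2 ⟨κ g, m g, ⟨(hm g hB.1 hB.2).1, (hm g hB.1 hB.2).2.1⟩, rfl⟩)
    · exact Or.inl rfl
  · rw [norm_smul, Real.norm_of_nonneg (by norm_num)]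
    linarith
  · rw [lp.coeFn_smul, Pi.smul_apply, hxb g]
    split_ifs with hB
    · exact Or.inr ⟨x g, ⟨x, hx, rfl⟩, rfl⟩
    · exact Or.inl (by simp)
  · have e1 : x - ((3 : ℝ) • z + (1 / 4 : ℝ) • (4 : ℝ) • xb) = x - ((3 : ℝ) • z + xb) := by
      rw [smul_smul]
      norm_num
    rw [e1]
    obtain ⟨w, hw, hwn⟩ := dom x (fun g => (x - ((3 : ℝ) • z + xb) : lp X p) g) (2 * ε₁)
      (by positivity) (by
        intro g
        have e2 : (x - ((3 : ℝ) • z + xb) : lp X p) g = x g - ((3 : ℝ) • z g + xb g) := rfl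
        rw [e2, hz g, hxb g]
        by_cases h0 : x g = 0
        · have h1 : ¬ (x g ≠ 0 ∧ good g) := fun h => h.1 h0
          have h2 : ¬ B g := fun h => h.1 h0
          rw [if_neg h1, if_neg h2, h0]
          simp
        · by_cases hg : good g
          · have h2 : ¬ B g := fun h => h.2 hg
            rw [if_pos ⟨h0, hg⟩, if_neg h2, add_zero, smul_smul]
            have h3 : (3 : ℝ) * (1 / 3 * (1 / 2) ^ κ g) = (1 / 2) ^ κ g := by ring
            rw [h3]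
            exact hzx g h0 hg
          · have h1 : ¬ (x g ≠ 0 ∧ good g) := fun h => hg h.2
            have h2 : B g := ⟨h0, hg⟩
            rw [if_neg h1, if_pos h2]
            simp only [smul_zero, zero_add, sub_self, norm_zero]
            positivity)
    have e3 : w = x - ((3 : ℝ) • z + xb) := by
      ext g
      exact hw g
    rw [← e3]
    refine hwn.trans ?_
    exact mul_le_of_le_one_right (by positivity) hx1

end

end LPA

theorem st_LPA (hW : ST_LPW.{u, v}) (hS : ST_SHK.{u}) : ST_LPA.{u, v} := by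
  intro Γ X _ _ p _ hp hp' δ hδ hδ1 H ε hε
  have hW' := hW Γ X p hp hp'
  set ε₁ : ℝ := min (ε / 6) 1 with hε₁
  have he0 : 0 < ε₁ := lt_min (by positivity) one_pos
  have he1 : ε₁ ≤ 1 := min_le_right _ _
  have he6 : ε₁ ≤ ε / 6 := min_le_left _ _
  choose F hF hM using fun g => H g ε₁ he0
  obtain ⟨J, hJ⟩ := exists_pow_lt_of_lt_one (show (0 : ℝ) < ε / 2 by positivity)
    (show (1 / 4 : ℝ) < 1 by norm_num)
  have hT : ∀ (j : ℕ) (K : Set (lp X p)), WCpt K → K ⊆ Bl (lp X p) →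
      WCpt (LPA.T^[j] K) ∧ LPA.T^[j] K ⊆ Bl (lp X p) := by
    intro j
    induction j with
    | zero => intro K h1 h2; exact ⟨h1, h2⟩
    | succ j ih =>
      intro K h1 h2
      rw [Function.iterate_succ_apply]
      exact ih _ (LPA.T_wc hW' h1) (LPA.T_bl K)
  refine ⟨fun K => ⋃ j ∈ Finset.range J, LPA.G F (LPA.T^[j] K), fun K hK hKB => ⟨?_, ?_⟩,
    fun L hL hLB => ?_⟩
  · exact wcpt_biUnion _ fun j _ => LPA.G_wc hS hW' hF (hT j K hK hKB).1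
  · intro y hy
    simp only [mem_iUnion] at hy
    obtain ⟨j, _, hy⟩ := hy
    exact hy.1
  · obtain ⟨M₁, hM₁, hstep⟩ := LPA.step hS hW' hδ he0 he1 hF hM L hL
    have key : ∀ n : ℕ, ∃ M : Set (lp X p), WCpt M ∧ ∀ K, WCpt K → K ⊆ Bl (lp X p) →
        (∀ j < n, Near (δ / 16) (LPA.G F (LPA.T^[j] K)) L) →
        Near ((1 / 4 : ℝ) ^ n + 3 * ε₁) K M := by
      intro n
      induction n with
      | zero =>
        refine ⟨{0}, wcpt_singleton 0, fun K _ hKB _ x hx => ⟨0, rfl, ?_⟩⟩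
        have : ‖x‖ ≤ 1 := hKB hx
        simp only [sub_zero, pow_zero]
        linarith
      | succ n ih =>
        obtain ⟨M, hM', hMn⟩ := ih
        refine ⟨_, hM₁.add (hM'.smul (1 / 4)), fun K hK hKB hN x hx => ?_⟩
        obtain ⟨z, hz, x', hx', hzx⟩ := hstep K hK hKB (hN 0 (by omega)) x hx
        obtain ⟨w, hw, hxw⟩ := hMn (LPA.T K) (LPA.T_wc hW' hK) (LPA.T_bl K)
          (fun j hj => by
            have := hN (j + 1) (by omega)
            rwa [Function.iterate_succ_apply] at this) x' hx'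
        refine ⟨z + (1 / 4 : ℝ) • w, ⟨z, hz, (1 / 4 : ℝ) • w, ⟨w, hw, rfl⟩, rfl⟩, ?_⟩
        have e1 : x - (z + (1 / 4 : ℝ) • w) =
            (x - (z + (1 / 4 : ℝ) • x')) + (1 / 4 : ℝ) • (x' - w) := by
          rw [smul_sub]; abel
        rw [e1]
        refine (norm_add_le _ _).trans ?_
        rw [norm_smul, Real.norm_of_nonneg (by norm_num), pow_succ]
        linarith
    obtain ⟨M, hM', hMn⟩ := key J
    refine ⟨M, hM', fun K hK hKB hN x hx => ?_⟩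
    obtain ⟨w, hw, hxw⟩ := hMn K hK hKB (fun j hj y hy => hN y (by
      simp only [mem_iUnion]
      exact ⟨j, Finset.mem_range.2 hj, hy⟩)) x hx
    exact ⟨w, hw, by linarith⟩

end Pool.Agent.Helper65.TU
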