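import Pool.Agent.Helper65.TU.Camp2
import Pool.Agent.Helper65.TU.Ampr2
import Pool.Agent.Helper65.TU.LPA
import Pool.Agent.Helper77.TU.RFL
import Pool.Agent.Helper65.TU.Final

/-! The closure properties with explicit constants (proofs of helper77, helper65). -/

open Set Filter Topology

namespace Pool.Agent.Helper65.TU

universe u v

theorem AMPd.mono {X : Type u} [NormedAddCommGroup X] [NormedSpace ℝ X] {δ δ' : ℝ}
    (h : AMPd δ X) (hd : δ' ≤ δ) : AMPd δ' X := by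
  intro ε hε
  obtain ⟨F, h1, h2⟩ := h ε hε
  refine ⟨F, h1, fun L hL hLB => ?_⟩
  obtain ⟨M, hM, hM2⟩ := h2 L hL hLB
  refine ⟨M, hM, fun K hK hKB hN => hM2 K hK hKB fun x hx => ?_⟩
  obtain ⟨y, hy, hxy⟩ := hN x hx
  exact ⟨y, hy, hxy.trans hd⟩

theorem AMPd.amp {X : Type u} [NormedAddCommGroup X] [NormedSpace ℝ X] {δ : ℝ}
    (h : AMPd δ X) (hd : 0 < δ) : AMP X := ⟨δ, hd, h⟩

theorem rfld (X : Type u) [NormedAddCommGroup X] [NormedSpace ℝ X] (h : Reflexive X) (δ : ℝ) :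
    AMPd δ X := by
  intro ε hε
  refine ⟨fun _ => ∅, fun K _ _ => ⟨wcpt_empty, empty_subset _⟩,
    fun L _ _ => ⟨Bl X, rfl_ball X h, fun K _ hK _ x hx => ⟨x, hK hx, ?_⟩⟩⟩
  rw [sub_self, norm_zero]
  exact hε.le

theorem prodd (X Y : Type u) [NormedAddCommGroup X] [NormedSpace ℝ X]
    [NormedAddCommGroup Y] [NormedSpace ℝ Y] {δ : ℝ} (HX : AMPd δ X) (HY : AMPd δ Y) :
    AMPd δ (X × Y) := by
  intro ε hε
  obtain ⟨FX, hF1, hF2⟩ := HX ε hε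
  obtain ⟨FY, hG1, hG2⟩ := HY ε hε
  have p1 : ∀ K : Set (X × Y), WCpt K → K ⊆ Bl (X × Y) →
      WCpt (ContinuousLinearMap.fst ℝ X Y '' K) ∧ ContinuousLinearMap.fst ℝ X Y '' K ⊆ Bl X := by
    intro K hK hB
    refine ⟨hK.image _, ?_⟩
    rintro _ ⟨z, hz, rfl⟩
    have h1 : ‖z‖ ≤ 1 := hB hz
    have h2 : ‖z.1‖ ≤ ‖z‖ := norm_fst_le z
    exact le_trans h2 h1
  have p2 : ∀ K : Set (X × Y), WCpt K → K ⊆ Bl (X × Y) →
      WCpt (ContinuousLinearMap.snd ℝ X Y '' K) ∧ ContinuousLinearMap.snd ℝ X Y '' K ⊆ Bl Y := by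
    intro K hK hB
    refine ⟨hK.image _, ?_⟩
    rintro _ ⟨z, hz, rfl⟩
    have h1 : ‖z‖ ≤ 1 := hB hz
    have h2 : ‖z.2‖ ≤ ‖z‖ := norm_snd_le z
    exact le_trans h2 h1
  refine ⟨fun K => ContinuousLinearMap.inl ℝ X Y '' FX (ContinuousLinearMap.fst ℝ X Y '' K) ∪
    ContinuousLinearMap.inr ℝ X Y '' FY (ContinuousLinearMap.snd ℝ X Y '' K), ?_, ?_⟩
  · intro K hK hB
    obtain ⟨a1, a2⟩ := p1 K hK hB
    obtain ⟨b1, b2⟩ := p2 K hK hB
    refine ⟨((hF1 _ a1 a2).1.image _).union ((hG1 _ b1 b2).1.image _), ?_⟩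
    rintro z (⟨x, hx, rfl⟩ | ⟨y, hy, rfl⟩)
    · have h1 : ‖x‖ ≤ 1 := (hF1 _ a1 a2).2 hx
      have h2 : ‖((x, 0) : X × Y)‖ ≤ 1 := by
        rw [Prod.norm_mk, norm_zero]
        exact max_le h1 zero_le_one
      exact h2
    · have h1 : ‖y‖ ≤ 1 := (hG1 _ b1 b2).2 hy
      have h2 : ‖((0, y) : X × Y)‖ ≤ 1 := by
        rw [Prod.norm_mk, norm_zero]
        exact max_le zero_le_one h1
      exact h2
  · intro L hL hLB
    obtain ⟨a1, a2⟩ := p1 L hL hLB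
    obtain ⟨b1, b2⟩ := p2 L hL hLB
    obtain ⟨MX, hMX, hMX2⟩ := hF2 _ a1 a2
    obtain ⟨MY, hMY, hMY2⟩ := hG2 _ b1 b2
    refine ⟨{z | ∃ x ∈ ContinuousLinearMap.inl ℝ X Y '' MX,
      ∃ y ∈ ContinuousLinearMap.inr ℝ X Y '' MY, z = x + y}, (hMX.image _).add (hMY.image _), ?_⟩
    intro K hK hB hn
    obtain ⟨c1, c2⟩ := p1 K hK hB
    obtain ⟨d1, d2⟩ := p2 K hK hB
    have nX : Near δ (FX (ContinuousLinearMap.fst ℝ X Y '' K))
        (ContinuousLinearMap.fst ℝ X Y '' L) := by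
      intro x hx
      obtain ⟨y, hy, hxy⟩ := hn (x, 0) (Or.inl ⟨x, hx, rfl⟩)
      refine ⟨y.1, ⟨y, hy, rfl⟩, ?_⟩
      have h1 : ‖(((x, 0) : X × Y) - y).1‖ ≤ ‖((x, 0) : X × Y) - y‖ := norm_fst_le _
      exact le_trans h1 hxy
    have nY : Near δ (FY (ContinuousLinearMap.snd ℝ X Y '' K))
        (ContinuousLinearMap.snd ℝ X Y '' L) := by
      intro x hx
      obtain ⟨y, hy, hxy⟩ := hn (0, x) (Or.inr ⟨x, hx, rfl⟩)
      refine ⟨y.2, ⟨y, hy, rfl⟩, ?_⟩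
      have h1 : ‖(((0, x) : X × Y) - y).2‖ ≤ ‖((0, x) : X × Y) - y‖ := norm_snd_le _
      exact le_trans h1 hxy
    have eX := hMX2 _ c1 c2 nX
    have eY := hMY2 _ d1 d2 nY
    intro z hz
    obtain ⟨a, ha, haz⟩ := eX z.1 ⟨z, hz, rfl⟩
    obtain ⟨b, hb, hbz⟩ := eY z.2 ⟨z, hz, rfl⟩
    refine ⟨(a, b), ⟨(a, 0), ⟨a, ha, rfl⟩, (0, b), ⟨b, hb, rfl⟩, by simp⟩, ?_⟩
    have h1 : z - (a, b) = (z.1 - a, z.2 - b) := rfl
    rw [h1, Prod.norm_mk]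
    exact max_le haz hbz

theorem isod (X Y : Type u) [NormedAddCommGroup X] [NormedSpace ℝ X]
    [NormedAddCommGroup Y] [NormedSpace ℝ Y] (T : X ≃L[ℝ] Y) {a δ : ℝ} (ha1 : 1 ≤ a)
    (haX : ‖(T : X →L[ℝ] Y)‖ ≤ a) (haY : ‖(T.symm : Y →L[ℝ] X)‖ ≤ a) (hδ : 0 < δ)
    (H : AMPd δ X) : AMPd (δ / (2 * a ^ 2)) Y := by
  set TX : X →L[ℝ] Y := (T : X →L[ℝ] Y) with hTX
  set TY : Y →L[ℝ] X := (T.symm : Y →L[ℝ] X) with hTY
  have hxy : ∀ y, TX (TY y) = y := fun y => T.apply_symm_apply y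
  have hyx : ∀ x, TY (TX x) = x := fun x => T.symm_apply_apply x
  have ha0 : 0 < a := by linarith
  have hbX : ∀ x, ‖TX x‖ ≤ a * ‖x‖ := fun x =>
    (TX.le_opNorm x).trans (mul_le_mul_of_nonneg_right haX (norm_nonneg _))
  have hbY : ∀ y, ‖TY y‖ ≤ a * ‖y‖ := fun y =>
    (TY.le_opNorm y).trans (mul_le_mul_of_nonneg_right haY (norm_nonneg _))
  intro ε hε
  obtain ⟨F, hF, hM⟩ := H (ε / a ^ 2) (by positivity)
  let P : Y →L[ℝ] X := a⁻¹ • TY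
  let Q : X →L[ℝ] Y := a⁻¹ • TX
  have hP : ∀ y, P y = a⁻¹ • TY y := fun y => rfl
  have hQ : ∀ x, Q x = a⁻¹ • TX x := fun x => rfl
  have hPn : ∀ y, ‖P y‖ ≤ ‖y‖ := by
    intro y
    rw [hP, norm_smul, Real.norm_of_nonneg (inv_nonneg.2 ha0.le)]
    calc a⁻¹ * ‖TY y‖ ≤ a⁻¹ * (a * ‖y‖) :=
          mul_le_mul_of_nonneg_left (hbY y) (inv_nonneg.2 ha0.le)
      _ = ‖y‖ := by field_simp
  have hQn : ∀ x, ‖Q x‖ ≤ ‖x‖ := by
    intro y
    rw [hQ, norm_smul, Real.norm_of_nonneg (inv_nonneg.2 ha0.le)]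
    calc a⁻¹ * ‖TX y‖ ≤ a⁻¹ * (a * ‖y‖) :=
          mul_le_mul_of_nonneg_left (hbX y) (inv_nonneg.2 ha0.le)
      _ = ‖y‖ := by field_simp
  have hPK : ∀ K : Set Y, WCpt K → K ⊆ Bl Y → WCpt (P '' K) ∧ P '' K ⊆ Bl X := by
    intro K hK hKB
    refine ⟨hK.image P, ?_⟩
    rintro _ ⟨y, hy, rfl⟩
    exact (hPn y).trans (hKB hy)
  refine ⟨fun K => Q '' (F (P '' K)), fun K hK hKB => ?_, fun L hL hLB => ?_⟩
  · obtain ⟨h1, h2⟩ := hPK K hK hKB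
    obtain ⟨h3, h4⟩ := hF _ h1 h2
    refine ⟨h3.image Q, ?_⟩
    rintro _ ⟨x, hx, rfl⟩
    exact (hQn x).trans (h4 hx)
  · set r : ℝ := 1 + δ / 2 with hr
    have hr0 : 0 < r := by positivity
    let L1 : Set X := {x | x ∈ (a • TY) '' L ∧ ‖x‖ ≤ r}
    let L2 : Set X := (fun x => r⁻¹ • x) '' L1
    have hL1 : WCpt L1 := (hL.image (a • TY)).inter_ball r
    have hL2 : WCpt L2 := hL1.smul r⁻¹
    have hL2B : L2 ⊆ Bl X := by
      rintro _ ⟨x, hx, rfl⟩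
      show ‖r⁻¹ • x‖ ≤ 1
      rw [norm_smul, Real.norm_of_nonneg (inv_nonneg.2 hr0.le), inv_mul_le_iff₀ hr0, mul_one]
      exact hx.2
    obtain ⟨M, hM1, hM2⟩ := hM L2 hL2 hL2B
    refine ⟨(a • TX) '' M, hM1.image _, fun K hK hKB hN => ?_⟩
    obtain ⟨h1, h2⟩ := hPK K hK hKB
    obtain ⟨h3, h4⟩ := hF _ h1 h2
    have hN1 : Near δ (F (P '' K)) L2 := by
      intro x hx
      obtain ⟨l, hl, hxl⟩ := hN (Q x) ⟨x, hx, rfl⟩
      have e1 : x = (a • TY) (Q x) := by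
        show x = a • TY (Q x)
        rw [hQ, map_smul, hyx, smul_smul, mul_inv_cancel₀ ha0.ne', one_smul]
      have e2 : ‖x - (a • TY) l‖ ≤ δ / 2 := by
        have e3 : x - (a • TY) l = a • TY (Q x - l) := by
          conv_lhs => rw [e1]
          show a • TY (Q x) - a • TY l = _
          rw [map_sub, smul_sub]
        rw [e3, norm_smul, Real.norm_of_nonneg ha0.le]
        calc a * ‖TY (Q x - l)‖ ≤ a * (a * (δ / (2 * a ^ 2))) :=
              mul_le_mul_of_nonneg_left ((hbY _).trans (mul_le_mul_of_nonneg_left hxl ha0.le)) ha0.le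
          _ = δ / 2 := by field_simp
      have e4 : ‖x‖ ≤ 1 := h4 hx
      have e5 : ‖(a • TY) l‖ ≤ r := by
        have := norm_sub_norm_le ((a • TY) l) x
        have e6 : ‖(a • TY) l - x‖ ≤ δ / 2 := by rw [norm_sub_rev]; exact e2
        rw [hr]
        linarith
      refine ⟨r⁻¹ • (a • TY) l, ⟨_, ⟨⟨l, hl, rfl⟩, e5⟩, rfl⟩, ?_⟩
      have e7 : ‖(a • TY) l - r⁻¹ • (a • TY) l‖ ≤ δ / 2 := by
        have e8 : (a • TY) l - r⁻¹ • (a • TY) l = (1 - r⁻¹) • (a • TY) l := by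
          rw [sub_smul, one_smul]
        have e9 : 0 ≤ 1 - r⁻¹ := by
          rw [sub_nonneg]
          exact inv_le_one_of_one_le₀ (by rw [hr]; linarith)
        rw [e8, norm_smul, Real.norm_of_nonneg e9]
        calc (1 - r⁻¹) * ‖(a • TY) l‖ ≤ (1 - r⁻¹) * r := mul_le_mul_of_nonneg_left e5 e9
          _ = r - 1 := by field_simp
          _ = δ / 2 := by rw [hr]; ring
      calc ‖x - r⁻¹ • (a • TY) l‖ = ‖(x - (a • TY) l) + ((a • TY) l - r⁻¹ • (a • TY) l)‖ := by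
            congr 1; abel
        _ ≤ δ / 2 + δ / 2 := (norm_add_le _ _).trans (add_le_add e2 e7)
        _ = δ := by ring
    have hN2 := hM2 _ h1 h2 hN1
    intro y hy
    obtain ⟨m, hm, hym⟩ := hN2 (P y) ⟨y, hy, rfl⟩
    refine ⟨(a • TX) m, ⟨m, hm, rfl⟩, ?_⟩
    have e1 : y = (a • TX) (P y) := by
      show y = a • TX (P y)
      rw [hP, map_smul, hxy, smul_smul, mul_inv_cancel₀ ha0.ne', one_smul]
    have e3 : y - (a • TX) m = a • TX (P y - m) := by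
      conv_lhs => rw [e1]
      show a • TX (P y) - a • TX m = _
      rw [map_sub, smul_sub]
    rw [e3, norm_smul, Real.norm_of_nonneg ha0.le]
    calc a * ‖TX (P y - m)‖ ≤ a * (a * (ε / a ^ 2)) :=
          mul_le_mul_of_nonneg_left ((hbX _).trans (mul_le_mul_of_nonneg_left hym ha0.le)) ha0.le
      _ = ε := by field_simp


theorem uncd (Γ : Type v) (X : Type u) [NormedAddCommGroup X] [NormedSpace ℝ X]
    [CompleteSpace X] (e : Γ → X) (C : ℝ) (hC : 1 ≤ C) (h : UB e C) : AMPd (1 / (4 * C)) X := by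
  have h1 : CS e (S12.coo e) (max C 1) := S12.mul' e C h
  have h2 := amprd X _ _ (by have := h1.pos; positivity) (fin_UNC Γ X e _ _ h1)
  rw [max_eq_left hC] at h2
  have h3 : 1 / (2 * (2 * C)) = 1 / (4 * C) := by ring
  rwa [h3] at h2

theorem latd (X : Type u) [NormedAddCommGroup X] [NormedSpace ℝ X] [Lattice X]
    [HasSolidNorm X] [IsOrderedAddMonoid X]
    (h : ∀ K : Set X, WCpt K → ∃ K', WCpt K' ∧ ∀ x ∈ K, ∀ y, |y| ≤ |x| → y ∈ K') :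
    AMPd (1 / 2) X := by
  have := amprd X _ 1 one_pos (st_LAT X h)
  simpa using this

theorem c0d (L : Type u) [TopologicalSpace L] [LocallyCompactSpace L] [T2Space L] :
    AMPd (1 / 4) (ZeroAtInftyContinuousMap L ℝ) := campd fin_C0 L

end Pool.Agent.Helper65.TU
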