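import Mathlib

/-! MP_5c2ead_an, positive half of Q1 (helper65): AK(X) ~ AK(B_X) for spaces with unconditional bases,
C_0(L) and Banach lattices with weakly compact solid hulls. Definitions and row statements. -/

open Set Filter Topology

namespace Pool.Agent.Helper65.TU

universe u v

/-- weakly compact set. -/
def WCpt {X : Type u} [NormedAddCommGroup X] [NormedSpace ℝ X] (K : Set X) : Prop :=
  IsCompact (toWeakSpace ℝ X '' K)

/-- closed unit ball. -/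
def Bl (X : Type u) [NormedAddCommGroup X] : Set X := {x | ‖x‖ ≤ 1}

/-- `K ⊆ L + δ B_X`. -/
def Near {X : Type u} [NormedAddCommGroup X] (δ : ℝ) (K L : Set X) : Prop :=
  ∀ x ∈ K, ∃ y ∈ L, ‖x - y‖ ≤ δ

/-- amplification property. -/
def AMP (X : Type u) [NormedAddCommGroup X] [NormedSpace ℝ X] : Prop :=
  ∃ δ > (0 : ℝ), ∀ ε > (0 : ℝ), ∃ F : Set X → Set X,
    (∀ K, WCpt K → K ⊆ Bl X → WCpt (F K) ∧ F K ⊆ Bl X) ∧
    ∀ L, WCpt L → L ⊆ Bl X → ∃ M, WCpt M ∧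
      ∀ K, WCpt K → K ⊆ Bl X → Near δ (F K) L → Near ε K M

/-- abstract solidity relation (`R y x`: y is below x). -/
structure Sld (X : Type u) [NormedAddCommGroup X] [NormedSpace ℝ X] (R : X → X → Prop) (C : ℝ) :
    Prop where
  bd : ∀ x y, R y x → ‖y‖ ≤ C * ‖x‖
  dec : ∀ x l, ∃ x' x'', x = x' + x'' ∧ R x' l ∧ R x'' x ∧ R x'' (x - l)
  hull : ∀ K, WCpt K → ∃ K', WCpt K' ∧ ∀ x ∈ K, ∀ y, R y x → y ∈ K'

/-- James' sequence. -/
structure JS {X : Type u} [NormedAddCommGroup X] [NormedSpace ℝ X] (θ : ℝ) (x : ℕ → X)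
    (f : ℕ → X →L[ℝ] ℝ) : Prop where
  pos : 0 < θ
  nx : ∀ n, ‖x n‖ ≤ 1
  nf : ∀ n, ‖f n‖ ≤ 1
  ge : ∀ n m, n ≤ m → θ ≤ f n (x m)
  ze : ∀ n m, m < n → f n (x m) = 0

/-- (long) unconditional basis with constant C. -/
structure UB {Γ : Type v} {X : Type u} [NormedAddCommGroup X] [NormedSpace ℝ X] (e : Γ → X)
    (C : ℝ) : Prop where
  ne : ∀ g, e g ≠ 0
  dense : closure (Submodule.span ℝ (range e) : Set X) = univ
  unc : ∀ a b : Γ →₀ ℝ, (∀ g, |a g| ≤ |b g|) →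
    ‖a.sum fun g t => t • e g‖ ≤ C * ‖b.sum fun g t => t • e g‖

open Classical in
/-- coordinate system with bounded multipliers. -/
structure CS {Γ : Type v} {X : Type u} [NormedAddCommGroup X] [NormedSpace ℝ X] (e : Γ → X)
    (co : Γ → X →L[ℝ] ℝ) (C : ℝ) : Prop where
  pos : 0 < C
  bio : ∀ g h, co g (e h) = if g = h then 1 else 0
  sep : ∀ x, (∀ g, co g x = 0) → x = 0
  mul : ∀ s : Γ → ℝ, (∀ g, |s g| ≤ 1) →
    ∃ T : X →L[ℝ] X, (∀ x g, co g (T x) = s g * co g x) ∧ ∀ x, ‖T x‖ ≤ C * ‖x‖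
  fin : ∀ x, ∀ ε > 0, ∃ F : Finset Γ, ∀ s : Γ → ℝ, (∀ g, |s g| ≤ 1) → (∀ g ∈ F, s g = 0) →
    ∀ y : X, (∀ g, co g y = s g * co g x) → ‖y‖ ≤ ε

/-- weakly compact sets contained in A, and AK(A). -/
def WeaklyCompact (X : Type u) [NormedAddCommGroup X] [NormedSpace ℝ X] (A : Set X) : Type u :=
  {K : Set X // K ⊆ A ∧ IsCompact (toWeakSpace ℝ X '' K)}

def AK (X : Type u) [NormedAddCommGroup X] [NormedSpace ℝ X] (A : Set X) (t : ℝ)
    (K L : WeaklyCompact X A) : Prop :=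
  ∀ x ∈ K.1, ∃ y ∈ L.1, ‖x - y‖ ≤ t

def TukeyReducible {P Q : Type u} (leP : ℝ → P → P → Prop) (leQ : ℝ → Q → Q → Prop) : Prop :=
  ∃ f : ℝ → P → Q, ∀ ε > 0, ∃ δ > 0, ∀ q₀ : Q, ∃ p₀ : P, ∀ p : P,
    leQ δ (f ε p) q₀ → leP ε p p₀

def Reflexive (X : Type u) [NormedAddCommGroup X] [NormedSpace ℝ X] : Prop :=
  Function.Surjective (NormedSpace.inclusionInDoubleDual ℝ X)

/-! rows, general part -/

/-- AMPR: δ = 1/(2C); K_0 = K, K_{j+1} = (1/(C δ)) K_j' with K_j' from `hull`, F K = union of the K_j ∩ Bl X,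
j ≤ J; M by recursion: M_J = {0}, M_j = L' + (C δ) M_{j+1}; (C δ)^J = 2^(-J) ≤ ε. -/
def ST_AMPR : Prop := ∀ (X : Type u) [NormedAddCommGroup X] [NormedSpace ℝ X]
  (R : X → X → Prop) (C : ℝ), 0 < C → Sld X R C → AMP X

/-- JAM: non-reflexive complete X: x** with distance > 0 to X; f n vanishes on x_0..x_{n-1} and x**(f n) > 2 θ
(Hahn-Banach for a finite-dimensional subspace), x m in the ball with f n (x m) near x**(f n) for n ≤ m (Goldstine / Helly). -/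
def ST_JAM : Prop := ∀ (X : Type u) [NormedAddCommGroup X] [NormedSpace ℝ X] [CompleteSpace X],
  ¬ Reflexive X → ∃ (θ : ℝ) (x : ℕ → X) (f : ℕ → X →L[ℝ] ℝ), JS θ x f

/-- MAZ: cluster point l of l_n in L near x n; f n l ≥ 3θ/4; l in the norm closed convex hull of the l_n
(`Convex.toWeakSpace_closure`); f n (l_m) ≤ θ/4 for m < n. -/
def ST_MAZ : Prop := ∀ (X : Type u) [NormedAddCommGroup X] [NormedSpace ℝ X]
  (θ : ℝ) (x : ℕ → X) (f : ℕ → X →L[ℝ] ℝ), JS θ x f → ∀ L : Set X, WCpt L →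
  ∃ n₀ : ℕ, ∀ n : ℕ, (∀ k ≤ n, ∃ l ∈ L, ‖x k - l‖ ≤ θ / 4) → n ≤ n₀

/-- RED: f_ε(K) = F(K/N) ∪ {x_0..x_N}, N = least natural number with K ⊆ N B, N ≥ 1, F for ε/N;
δ = min(θ/4, δ of AMP); p₀ = union over N ≤ n₀ of N M_N. -/
def ST_RED : Prop := ∀ (X : Type u) [NormedAddCommGroup X] [NormedSpace ℝ X] [CompleteSpace X],
  ¬ Reflexive X → AMP X → TukeyReducible (AK X univ) (AK X (Bl X))

/-- REV: f = id, δ = ε/2, L' = (1+δ)^{-1} (L ∩ (1+δ) B). -/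
def ST_REV : Prop := ∀ (X : Type u) [NormedAddCommGroup X] [NormedSpace ℝ X],
  TukeyReducible (AK X (Bl X)) (AK X univ)

/-- ES: easy half of Eberlein-Smulian: closed span Y of the x n is separable, countably many functionals separate
the points of Y, diagonal subsequence, unique cluster point in K (`le_nhds_of_unique_clusterPt`). -/
def ST_ES : Prop := ∀ (X : Type u) [NormedAddCommGroup X] [NormedSpace ℝ X] (K : Set X), WCpt K →
  ∀ x : ℕ → X, (∀ n, x n ∈ K) → ∃ φ : ℕ → ℕ, StrictMono φ ∧ ∃ z ∈ K,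
    ∀ f : X →L[ℝ] ℝ, Tendsto (fun k => f (x (φ k))) atTop (𝓝 (f z))

/-! rows, unconditional bases -/

/-- MUL: coordinates and multipliers of an unconditional basis (extend from the span by density). -/
def ST_MUL : Prop := ∀ (Γ : Type v) (X : Type u) [NormedAddCommGroup X] [NormedSpace ℝ X]
  [CompleteSpace X] (e : Γ → X) (C : ℝ), UB e C → ∃ (co : Γ → X →L[ℝ] ℝ) (C' : ℝ), CS e co C'

/-- L1: weights f (e g) * co g x are summable; finite sums are f (M_s x) with s = signs on a finite set. -/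
def ST_L1 : Prop := ∀ (Γ : Type v) (X : Type u) [NormedAddCommGroup X] [NormedSpace ℝ X]
  (e : Γ → X) (co : Γ → X →L[ℝ] ℝ) (C : ℝ), CS e co C → ∀ (f : X →L[ℝ] ℝ) (x : X),
  Summable (fun g => |f (e g) * co g x|) ∧ (∑' g, |f (e g) * co g x|) ≤ C * ‖f‖ * ‖x‖ ∧
  ∀ (s : Γ → ℝ), (∀ g, |s g| ≤ 1) → ∀ y : X, (∀ g, co g y = s g * co g x) →
    f y = ∑' g, s g * (f (e g) * co g x)

/-- SCH: Schur's theorem in l_1(Γ) (gliding hump). -/
def ST_SCH : Prop := ∀ (Γ : Type v) (a : ℕ → Γ → ℝ), (∀ n, Summable fun g => |a n g|) →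
  (∀ s : Γ → ℝ, (∀ g, |s g| ≤ 1) → Tendsto (fun n => ∑' g, s g * a n g) atTop (𝓝 0)) →
  Tendsto (fun n => ∑' g, |a n g|) atTop (𝓝 0)

/-- TAIL: uniform tails on weakly compact sets (ES + L1 + SCH: the set of the (f (e g) * co g x)_g, x ∈ K, is
sequentially compact in l_1, hence totally bounded). -/
def ST_TAIL : Prop := ∀ (Γ : Type v) (X : Type u) [NormedAddCommGroup X] [NormedSpace ℝ X]
  (e : Γ → X) (co : Γ → X →L[ℝ] ℝ) (C : ℝ), CS e co C → ∀ (f : X →L[ℝ] ℝ) (K : Set X), WCpt K →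
  ∀ ε > 0, ∃ F : Finset Γ, ∀ x ∈ K, ∀ s : Γ → ℝ, (∀ g, |s g| ≤ 1) → (∀ g ∈ F, s g = 0) →
    |∑' g, s g * (f (e g) * co g x)| ≤ ε

/-- SOL: the solid hull is the image of the compact set [-1,1]^Γ × K under (s,x) ↦ M_s x, weakly continuous by
TAIL and L1. -/
def ST_SOL : Prop := ∀ (Γ : Type v) (X : Type u) [NormedAddCommGroup X] [NormedSpace ℝ X]
  (e : Γ → X) (co : Γ → X →L[ℝ] ℝ) (C : ℝ), CS e co C → ∀ K : Set X, WCpt K →
  WCpt {y : X | ∃ x ∈ K, ∃ s : Γ → ℝ, (∀ g, |s g| ≤ 1) ∧ ∀ g, co g y = s g * co g x}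

/-- UNC: x_g good if |l_g| ≥ |x_g|/2: x' = M_s l, s = x_g/l_g on good g; x'' = M_t x, t = indicator of the bad g,
= M_u (x - l), u = x_g/(x_g - l_g) on bad g. -/
def ST_UNC : Prop := ∀ (Γ : Type v) (X : Type u) [NormedAddCommGroup X] [NormedSpace ℝ X]
  (e : Γ → X) (co : Γ → X →L[ℝ] ℝ) (C : ℝ), CS e co C →
  Sld X (fun y x => ∃ s : Γ → ℝ, (∀ g, |s g| ≤ 2) ∧ ∀ g, co g y = s g * co g x) (2 * C)

/-! rows, Banach lattices -/

/-- LAT: x' = (x ⊓ |l|) ⊔ (-|l|), x'' = x - x'. -/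
def ST_LAT : Prop := ∀ (X : Type u) [NormedAddCommGroup X] [NormedSpace ℝ X] [Lattice X]
  [HasSolidNorm X] [IsOrderedAddMonoid X],
  (∀ K : Set X, WCpt K → ∃ K', WCpt K' ∧ ∀ x ∈ K, ∀ y, |y| ≤ |x| → y ∈ K') →
  Sld X (fun y x => |y| ≤ |x|) 1

/-! rows, C_0(L) -/

/-- GL1: K weakly compact in C(S): on K the L_1(ν) distance is weakly continuous (ES, dominated convergence:
K is sequentially compact in L_1(ν); {y ∈ K : ∫|y-x| ≥ ε} is L_1-compact and covered by the sets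
|∫ (z - x) (y - x) dν| > c_y). -/
def ST_GL1 : Prop := ∀ (S : Type u) [TopologicalSpace S] [CompactSpace S] [T2Space S]
  [MeasurableSpace S] [BorelSpace S] (ν : MeasureTheory.Measure S), MeasureTheory.IsFiniteMeasure ν →
  ∀ (K : Set C(S, ℝ)), WCpt K → ∀ x ∈ K, ∀ ε > 0, ∃ (G : Finset (C(S, ℝ) →L[ℝ] ℝ)) (η : ℝ),
    0 < η ∧ ∀ y ∈ K, (∀ g ∈ G, |g y - g x| < η) → ∫ t, |y t - x t| ∂ν < ε

/-- GRO: Grothendieck's lemma (GL1 + Pool.Agent.Helper40.BaireAffine.exists_dom). -/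
def ST_GRO : Prop := ∀ (S : Type u) [TopologicalSpace S] [CompactSpace S] [T2Space S]
  (K : Set C(S, ℝ)), WCpt K → ∀ (φ : ℝ → ℝ) (hφ : Continuous φ) (c : ℝ),
  (∀ a b, |φ a - φ b| ≤ c * |a - b|) →
  WCpt ((fun x : C(S, ℝ) => (⟨fun t => φ (x t), hφ.comp x.continuous⟩ : C(S, ℝ))) '' K)

/-- C0: the same in C_0(L), through OnePoint L (extension by 0, projection f ↦ f - f(∞)). -/
def ST_C0 : Prop := ∀ (L : Type u) [TopologicalSpace L] [LocallyCompactSpace L] [T2Space L]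
  (K : Set (ZeroAtInftyContinuousMap L ℝ)), WCpt K → ∀ (φ : ℝ → ℝ) (c : ℝ), φ 0 = 0 →
  (∀ a b, |φ a - φ b| ≤ c * |a - b|) →
  WCpt {y : ZeroAtInftyContinuousMap L ℝ | ∃ x ∈ K, ∀ t, y t = φ (x t)}

/-- CAMP: slices of height h ≤ ε: φ_i(v) = clamp((v - i h)/h, 0, 1), and of -v, i < m with m h ≥ 1, F K = all
slices of K; ψ(v) = clamp((v - 1/4) * 2, 0, 1), δ = 1/4; M = h (ψL + .. + ψL) - h (ψL + .. + ψL), m terms each
(at a point at most one slice is strictly between 0 and 1, the other ones are recovered exactly by ψ). -/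
def ST_CAMP : Prop := ∀ (L : Type u) [TopologicalSpace L] [LocallyCompactSpace L] [T2Space L],
  AMP (ZeroAtInftyContinuousMap L ℝ)

end Pool.Agent.Helper65.TU
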