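import Pool.Agent.Helper65.TU.Basic

/-! MP_5c2ead_an, project TU: closure of the class under finite sums, isomorphisms, reflexive spaces. -/

open Set Filter Topology

namespace Pool.Agent.Helper65.TU

universe u v

/-- ISO: a ≥ 1, ‖T‖, ‖T⁻¹‖ ≤ a: F_Y K = (1/a) T (F_X ((1/a) T⁻¹ K)), δ' = δ/(2a²),
L₁ = (1+δ/2)⁻¹ (a T⁻¹ L ∩ (1+δ/2) B), ε₁ = ε/a². -/
def ST_ISO : Prop := ∀ (X Y : Type u) [NormedAddCommGroup X] [NormedSpace ℝ X]
  [NormedAddCommGroup Y] [NormedSpace ℝ Y], (X ≃L[ℝ] Y) → AMP X → AMP Y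

/-- PROD: F K = (F_X (fst K) × 0) ∪ (0 × F_Y (snd K)), δ = min, L_X = fst L, L_Y = snd L, M = M_X × M_Y
(ε / 2 not needed: sup norm). -/
def ST_PROD : Prop := ∀ (X Y : Type u) [NormedAddCommGroup X] [NormedSpace ℝ X]
  [NormedAddCommGroup Y] [NormedSpace ℝ Y], AMP X → AMP Y → AMP (X × Y)

/-- RFL: the ball of a reflexive space is weakly compact (Banach-Alaoglu); F K = ∅, M = ball. -/
def ST_RFL : Prop := ∀ (X : Type u) [NormedAddCommGroup X] [NormedSpace ℝ X], Reflexive X → AMP X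

end Pool.Agent.Helper65.TU
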