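import Pool.Agent.Helper65.TU.Stmts2

/-! MP_5c2ead_an, project TU: closure of the class under l_p-sums, 1 < p < ∞. -/

open Set Filter Topology
open scoped ENNReal

namespace Pool.Agent.Helper65.TU

universe u v

/-- amplification property with a given constant δ. -/
def AMPd (δ : ℝ) (X : Type u) [NormedAddCommGroup X] [NormedSpace ℝ X] : Prop :=
  ∀ ε > (0 : ℝ), ∃ F : Set X → Set X,
    (∀ K, WCpt K → K ⊆ Bl X → WCpt (F K) ∧ F K ⊆ Bl X) ∧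
    ∀ L, WCpt L → L ⊆ Bl X → ∃ M, WCpt M ∧
      ∀ K, WCpt K → K ⊆ Bl X → Near δ (F K) L → Near ε K M

/-- LPF: a functional on an l_p-sum (1 < p < ∞) has small tails: otherwise there are disjointly (finitely) supported
x_1, .., x_N in the ball with f x_i ≥ ε/2, ‖Σ x_i‖ ≤ N^(1/p), f (Σ x_i) ≥ N ε/2. (Use `lp.hasSum_single` /
density of finitely supported vectors.) -/
def ST_LPF : Prop := ∀ (Γ : Type v) (X : Γ → Type u) [∀ g, NormedAddCommGroup (X g)]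
  [∀ g, NormedSpace ℝ (X g)] (p : ℝ≥0∞) [Fact (1 ≤ p)], 1 < p → p ≠ ⊤ →
  ∀ (f : lp X p →L[ℝ] ℝ), ∀ ε > 0, ∃ F : Finset Γ, ∀ y : lp X p, (∀ g ∈ F, y g = 0) → |f y| ≤ ε * ‖y‖

/-- LPW: A_g weakly compact for all g: the set of the y in the ball of the l_p-sum with all y_g in A_g is weakly
compact: with LPF the map from the compact set {w ∈ Π A_g (weak topologies) : w ∈ E, ‖w‖ ≤ 1} (closed, because
‖w‖ ≤ 1 iff all finite sums Σ_(g ∈ F) ‖w_g‖^p ≤ 1, and the norm is weakly lower semicontinuous) is weakly continuous. -/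
def ST_LPW : Prop := ∀ (Γ : Type v) (X : Γ → Type u) [∀ g, NormedAddCommGroup (X g)]
  [∀ g, NormedSpace ℝ (X g)] (p : ℝ≥0∞) [Fact (1 ≤ p)], 1 < p → p ≠ ⊤ →
  ∀ A : (g : Γ) → Set (X g), (∀ g, WCpt (A g)) →
  WCpt {y : lp X p | ‖y‖ ≤ 1 ∧ ∀ g, y g ∈ A g}

/-- SHK: a union of weakly compact sets shrinking to 0, with 0, is weakly compact. -/
def ST_SHK : Prop := ∀ (X : Type u) [NormedAddCommGroup X] [NormedSpace ℝ X] (A : ℕ → Set X) (r : ℕ → ℝ),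
  (∀ k, WCpt (A k)) → (∀ k, ∀ x ∈ A k, ‖x‖ ≤ r k) → Tendsto r atTop (𝓝 0) →
  WCpt ({0} ∪ ⋃ k, A k)

/-- LPA: the l_p-sum of spaces with AMPd δ has AMPd (δ/16). -/
def ST_LPA : Prop := ∀ (Γ : Type v) (X : Γ → Type u) [∀ g, NormedAddCommGroup (X g)]
  [∀ g, NormedSpace ℝ (X g)] (p : ℝ≥0∞) [Fact (1 ≤ p)], 1 < p → p ≠ ⊤ →
  ∀ δ > (0 : ℝ), δ ≤ 1 → (∀ g, AMPd δ (X g)) → AMPd (δ / 16) (lp X p)

end Pool.Agent.Helper65.TU
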